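import Pool.Agent.W387.S.Lnk
import Pool.Agent.H982R3.PolyLog
import Pool.Agent.H500R3.Saw.Trans

/-!
The quasi-polynomial bounds with exponent `3`.
-/

set_option linter.unusedSectionVars false

namespace Pool.Agent.W387.S

open H982
open scoped ENNReal
open PowerSeries

variable [L : H982.Lat]

lemma Ec_bound {N : ℕ} (hN : 2 ≤ N) {r : ℕ} (hr1 : 1 ≤ r) (hr : r ≤ N) :
    LeT N (Ec r (2 * r)) (cst (ENNReal.ofReal (164 * Real.log N)) * Us (16 * r)) := by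
  intro n hn
  rw [coeff_cst_mul]
  have h0 := coeff_Ec_le n r (2 * r) hr1 (by omega)
  rw [show 8 * (2 * r) = 16 * r by ring] at h0
  refine h0.trans ?_
  refine mul_le_mul' ?_ le_rfl
  rw [← ENNReal.ofReal_natCast]
  apply ENNReal.ofReal_le_ofReal
  have hNr : (2 : ℝ) ≤ N := by exact_mod_cast hN
  have hl2 := log_two_gt'
  have hlN : Real.log 2 ≤ Real.log N := Real.log_le_log (by norm_num) hNr
  obtain ⟨M, hM⟩ : ∃ M, M = Real.log N := ⟨_, rfl⟩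
  have hM1 : 1 / 2 ≤ M := by rw [hM]; linarith
  have h2 : ((Nat.log 2 (2 * r) : ℕ) : ℝ) + 1 ≤ 10 * M := by
    have e1 : ((Nat.log 2 (2 * r) : ℕ) : ℝ) * Real.log 2 ≤ Real.log (2 * r : ℕ) := by
      rw [← Real.log_pow]
      apply Real.log_le_log (by positivity)
      exact_mod_cast Nat.pow_log_le_self 2 (by omega : 2 * r ≠ 0)
    have e2 : Real.log ((2 * r : ℕ) : ℝ) ≤ Real.log (2 * N) := by
      apply Real.log_le_log (by exact_mod_cast (by omega : 0 < 2 * r))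
      have : ((2 * r : ℕ) : ℝ) ≤ ((2 * N : ℕ) : ℝ) := by exact_mod_cast (by omega : 2 * r ≤ 2 * N)
      push_cast at this ⊢
      linarith
    have e3 : Real.log (2 * N) = Real.log 2 + M := by
      rw [Real.log_mul (by norm_num) (by positivity), hM]
    have e4 : ((Nat.log 2 (2 * r) : ℕ) : ℝ) * Real.log 2 ≤ Real.log 2 + M := by linarith
    nlinarith
  push_cast
  calc (2 : ℝ) + 16 * (((Nat.log 2 (2 * r) : ℕ) : ℝ) + 1)
      ≤ 2 + 16 * (10 * M) := by gcongr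
    _ ≤ 164 * M := by linarith
    _ = _ := by rw [hM]

theorem RB_of_r {C : ℝ} (hC : 0 ≤ C) {k : ℕ} (hk : 1 ≤ k)
    (H : ∀ N : ℕ, 2 ≤ N → ∀ r, 1 ≤ r → r ≤ N →
      LeT N (Ec r (2 * r)) (cst (ENNReal.ofReal (C * Real.log N ^ k)) * Us (16 * r))) :
    ∃ K : ℝ, 0 ≤ K ∧ RB K (2 * k + 1) := by
  obtain ⟨K₁, hK₁, h1⟩ := hh_small
  refine ⟨K₁ + (28 + 4096 * C ^ 2), by positivity, fun N => ?_⟩
  set l : ℝ := 1 + Real.log ((N : ℝ) + 1) with hl
  have hl1 : 1 ≤ l := ell_ge_one N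
  have hlm : 1 ≤ l ^ (2 * k + 1) := one_le_pow₀ hl1
  rcases Nat.lt_or_ge N 2 with hN | hN
  · refine (h1 N (by omega)).trans
      (mul_le_mul' (ENNReal.ofReal_le_ofReal (Real.exp_le_exp.mpr ?_)) le_rfl)
    have h5 : 0 ≤ 28 + 4096 * C ^ 2 := by positivity
    calc K₁ ≤ (K₁ + (28 + 4096 * C ^ 2)) * 1 := by linarith
      _ ≤ _ := by gcongr
  · have hNr : (2 : ℝ) ≤ N := by exact_mod_cast hN
    have hlog0 : 0 ≤ Real.log N := Real.log_nonneg (by linarith)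
    have hlogl : Real.log N ≤ l := by
      have : Real.log (N : ℝ) ≤ Real.log ((N : ℝ) + 1) :=
        Real.log_le_log (by linarith) (by linarith)
      rw [hl]; linarith
    refine (hh_le_r hN (c := C * Real.log N ^ k) (by positivity) (H N hN)).trans
      (mul_le_mul' (ENNReal.ofReal_le_ofReal (Real.exp_le_exp.mpr ?_)) le_rfl)
    have e1 : l ^ 2 ≤ l ^ (2 * k + 1) := pow_le_pow_right₀ hl1 (by omega)
    calc 4 * Real.log N * (7 * Real.log N + 1024 * (C * Real.log N ^ k) ^ 2)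
        ≤ 4 * l * (7 * l + 1024 * (C * l ^ k) ^ 2) := by gcongr
      _ = 28 * l ^ 2 + 4096 * C ^ 2 * l ^ (2 * k + 1) := by ring
      _ ≤ 28 * l ^ (2 * k + 1) + 4096 * C ^ 2 * l ^ (2 * k + 1) := by gcongr
      _ = (28 + 4096 * C ^ 2) * l ^ (2 * k + 1) := by ring
      _ ≤ (K₁ + (28 + 4096 * C ^ 2)) * l ^ (2 * k + 1) :=
        mul_le_mul_of_nonneg_right (by linarith) (by positivity)

/-- **Half-plane walks are at most `exp (K (log n)^3)` times as numerous as bridges.** -/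
theorem RB3 : ∃ K : ℝ, 0 ≤ K ∧ RB K 3 :=
  RB_of_r (C := 164) (by norm_num) (k := 1) (by norm_num)
    (fun N hN r h1 h2 => by rw [pow_one]; exact Ec_bound hN h1 h2)

theorem cr'_upper3 : ∃ K : ℝ, 0 ≤ K ∧ ∀ N : ℕ, 2 ≤ N →
    cr' N ≤ mu ^ N * Real.exp (K * Real.log N ^ 3) := by
  obtain ⟨K, hK, h⟩ := RB3
  exact cr'_upper_log (by norm_num) hK h

theorem br'_lower3 : ∃ K : ℝ, 0 ≤ K ∧ ∀ N : ℕ, 2 ≤ N →
    mu ^ N * Real.exp (- (K * Real.log N ^ 3)) ≤ br' N := by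
  obtain ⟨K, hK, h⟩ := RB3
  exact br'_lower_log (by norm_num) hK h

end Pool.Agent.W387.S

namespace Pool.Agent.W387.S

open H500S

/-- the same for the words of the square lattice -/
theorem RBsq3 : ∃ K : ℝ, 0 ≤ K ∧ H981.RB K 3 := by
  obtain ⟨K, hK, h⟩ := @RB3 sL
  refine ⟨K, hK, fun N => ?_⟩
  rw [← hh_eq, ← bn_eq]
  exact h N

theorem sq_upper3 : ∃ K : ℝ, 0 ≤ K ∧ ∀ N : ℕ, 2 ≤ N →
    H981.cr' N ≤ H981.mu ^ N * Real.exp (K * Real.log N ^ 3) := by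
  obtain ⟨K, hK, h⟩ := RBsq3
  exact H981.cr'_upper_log (by norm_num) hK h

theorem sq_lower3 : ∃ K : ℝ, 0 ≤ K ∧ ∀ N : ℕ, 2 ≤ N →
    H981.mu ^ N * Real.exp (- (K * Real.log N ^ 3)) ≤ H981.br' N := by
  obtain ⟨K, hK, h⟩ := RBsq3
  exact H981.br'_lower_log (by norm_num) hK h

theorem sq_PP3 : ∃ K : ℝ, 0 ≤ K ∧ ∀ N : ℕ, 2 ≤ N →
    H981.mu ^ (2 * N) * Real.exp (-(K * Real.log N ^ 3)) ≤ H981.PP N ∧
    H981.PP N ≤ H981.mu ^ (2 * N) * Real.exp (K * Real.log N ^ 3) := by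
  obtain ⟨K, hK, h⟩ := RBsq3
  exact H981.PP_bounds_log (by norm_num) hK h

end Pool.Agent.W387.S
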