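import Pool.Agent.H982R3.Trunc

/-!
Chains of folded bridges: the two-step Gronwall argument with random marks, for extendable pairs.
-/

set_option linter.unusedSectionVars false

namespace Pool.Agent.W387.S

open H982
open scoped ENNReal
open PowerSeries

variable [L : H982.Lat]

/-- `X` can be extended to the left to a bridge of width at least the width of `Y`, which is not
crossed by the reflection of `Y` -/
def EU (X Y : List St) : Prop := ∃ u, IsB u ∧ NCg (u ++ X) Y ∧ wd Y ≤ wd (u ++ X)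

/-- `Y` can be extended to the right to a bridge of width at least the width of `X`, whose
reflection does not cross `X` -/
def ED (X Y : List St) : Prop := ∃ v, IsB v ∧ NCg X (Y ++ v) ∧ wd X ≤ wd (Y ++ v)

/-- extendable non-crossing pairs -/
def PP (X Y : List St) : Prop := X ≠ [] → Y ≠ [] → EU X Y ∧ ED X Y

/-- all short suffixes of `β` form extendable pairs with `β'` -/
def CC (r : ℕ) (β β' : List St) : Prop :=
  ∀ u X, IsB u → IsB X → β = u ++ X → wd X ≤ r → PP X β'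

lemma PP.suf {a X Y : List St} (ha : IsB a) (hX : IsB X) (h : PP (a ++ X) Y) : PP X Y := by
  intro h1 h2
  obtain ⟨⟨u, u1, u2, u3⟩, ⟨v, v1, v2, v3⟩⟩ := h (by simp [h1]) h2
  refine ⟨⟨u ++ a, u1.append ha, ?_, ?_⟩, ⟨v, v1, v2.suf, ?_⟩⟩
  · rw [List.append_assoc]; exact u2
  · rw [List.append_assoc]; exact u3
  · rw [wd_append ha hX] at v3
    omega

lemma PP.pre {X Y b : List St} (hY : IsB Y) (hb : IsB b) (h : PP X (Y ++ b)) : PP X Y := by
  intro h1 h2
  obtain ⟨⟨u, u1, u2, u3⟩, ⟨v, v1, v2, v3⟩⟩ := h h1 (by simp [h2])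
  refine ⟨⟨u, u1, u2.pre, ?_⟩, ⟨b ++ v, hb.append v1, ?_, ?_⟩⟩
  · rw [wd_append hY hb] at u3
    omega
  · rw [← List.append_assoc]; exact v2
  · rw [← List.append_assoc]; exact v3

lemma CC.suf {r : ℕ} {a β β' : List St} (ha : IsB a) (h : CC r (a ++ β) β') : CC r β β' := by
  intro u X hu hX he hw
  exact h (a ++ u) X (ha.append hu) hX (by rw [he, List.append_assoc]) hw

lemma CC.pre {r : ℕ} {β Y Z : List St} (hY : IsB Y) (hZ : IsB Z) (h : CC r β (Y ++ Z)) :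
    CC r β Y := fun u X hu hX he hw => (h u X hu hX he hw).pre hY hZ

lemma CC_nil_left (r : ℕ) (β' : List St) : CC r [] β' := by
  intro u X hu hX he hw h1
  exfalso
  have := (List.append_eq_nil_iff.mp he.symm).2
  exact h1 this

lemma CC_nil_right (r : ℕ) (β : List St) : CC r β [] := fun _ _ _ _ _ _ _ h2 => absurd rfl h2

lemma CC_of_NCg {r : ℕ} {β β' : List St} (h : NCg β β') (h1 : r ≤ wd β') (h2 : wd β' ≤ wd β) :
    CC r β β' := by
  intro u X hu hX he hw _ _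
  subst he
  refine ⟨⟨u, hu, h, h2⟩, ⟨[], isB_nil, ?_, ?_⟩⟩
  · rw [List.append_nil]; exact h.suf
  · rw [List.append_nil]; omega

/-- chains with decreasing widths in `[r, r + k)` following `β`, with extendable pairs -/
noncomputable def Rc (r : ℕ) : ℕ → List St → PS
  | 0, _ => 1
  | k + 1, β => Rc r k β + fs (fun β' => ii (IsBr (r + k) β' ∧ CC r β β') * (xl β' * Rc r k β'))

lemma Rr_le_Rc (r k : ℕ) (β : List St) (hw : β = [] ∨ r + k ≤ wd β) : Rr r k β ≤ Rc r k β := by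
  induction k generalizing β with
  | zero => exact le_rfl
  | succ k ih =>
    simp only [Rr, Rc]
    refine add_le_add (ih β (hw.imp id (fun h => by omega))) (fs_mono fun β' => ?_)
    by_cases h : IsBr (r + k) β' ∧ NCg β β'
    · rw [ii_of h, one_mul]
      have h2 : CC r β β' := by
        rcases hw with hw | hw
        · rw [hw]; exact CC_nil_left r β'
        · exact CC_of_NCg h.2 (by rw [h.1.wd]; omega) (by rw [h.1.wd]; omega)
      rw [ii_of (p := IsBr (r + k) β' ∧ CC r β β') ⟨h.1, h2⟩, one_mul]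
      gcongr
      exact ih β' (Or.inr (by rw [h.1.wd]))
    · rw [ii_not h, zero_mul]; exact zero_le

lemma Rc_le_succ (r k : ℕ) (β : List St) : Rc r k β ≤ Rc r (k + 1) β := by
  simp only [Rc]; exact le_self_add

lemma Rc_suf (r k : ℕ) (u β : List St) (hu : IsB u) : Rc r k (u ++ β) ≤ Rc r k β := by
  induction k with
  | zero => exact le_rfl
  | succ k ih =>
    simp only [Rc]
    apply add_le_add ih
    apply fs_mono
    intro β'
    gcongr
    exact ii_mono fun h' => ⟨h'.1, h'.2.suf hu⟩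

lemma Rc_le_one_add (r k : ℕ) (β : List St) : Rc r k β ≤
    1 + fs (fun β' => ii ((IsB β' ∧ r ≤ wd β' ∧ wd β' < r + k) ∧ CC r β β') *
      (xl β' * Rc r k β')) := by
  induction k with
  | zero => simp only [Rc]; exact le_self_add
  | succ k ih =>
    calc Rc r (k + 1) β = Rc r k β + fs (fun β' => ii (IsBr (r + k) β' ∧ CC r β β') *
          (xl β' * Rc r k β')) := rfl
      _ ≤ (1 + fs (fun β' => ii ((IsB β' ∧ r ≤ wd β' ∧ wd β' < r + k) ∧ CC r β β') *
            (xl β' * Rc r k β'))) + fs (fun β' => ii (IsBr (r + k) β' ∧ CC r β β') *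
          (xl β' * Rc r k β')) := by gcongr
      _ = 1 + (fs (fun β' => ii ((IsB β' ∧ r ≤ wd β' ∧ wd β' < r + k) ∧ CC r β β') *
            (xl β' * Rc r k β')) + fs (fun β' => ii (IsBr (r + k) β' ∧ CC r β β') *
          (xl β' * Rc r k β'))) := by ring
      _ ≤ _ := by
          gcongr
          exact comb_aux r k (CC r β) _ _ (fun β' => by
            gcongr
            exact Rc_le_succ r k β')

/-- unrolled recursion -/
lemma Rc_eq (r k : ℕ) (β : List St) : Rc r k β =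
    1 + ∑ l ∈ Finset.range k, fs (fun β' => ii (IsBr (r + l) β' ∧ CC r β β') *
      (xl β' * Rc r l β')) := by
  induction k with
  | zero => simp [Rc]
  | succ k ih =>
    rw [Finset.sum_range_succ, ← add_assoc, ← ih]
    rfl

/-- `Y` above the fold -/
noncomputable def Nc (r W : ℕ) (β : List St) : PS :=
  fs (fun Y => ii ((IsB Y ∧ wd Y ≤ W) ∧ CC r β Y) * xl Y)

noncomputable def Ec (r W : ℕ) : PS :=
  fs (fun X => ii (IsB X ∧ wd X ≤ r) * (xl X * Nc r W X))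

noncomputable def Gc (r k W : ℕ) : PS :=
  fs (fun X => ii (IsB X ∧ wd X ≤ r) * (xl X * Rc r k X))

lemma Nc_suf (r W : ℕ) (u β : List St) (hu : IsB u) : Nc r W (u ++ β) ≤ Nc r W β := by
  apply fs_mono
  intro Y
  gcongr
  exact ii_mono fun h => ⟨h.1, h.2.suf hu⟩

lemma one_le_Nc (r W : ℕ) (β : List St) : 1 ≤ Nc r W β := by
  calc (1 : PS) = ii ((IsB [] ∧ wd [] ≤ W) ∧ CC r β []) * xl [] := by
        rw [ii_of ⟨⟨isB_nil, by simp [wd]⟩, CC_nil_right r β⟩]; simp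
    _ ≤ _ := le_fs (fun Y => ii ((IsB Y ∧ wd Y ≤ W) ∧ CC r β Y) * xl Y) []

lemma Nc_nil_le (r W : ℕ) : Nc r W [] ≤ Us W := by
  apply fs_mono
  intro Y
  gcongr
  exact ii_mono fun h => h.1

/-- existence of the irreducible piece covering the mark at distance `m` from the end -/
lemma exists_triple_r {A m : ℕ} {β : List St} (hβ : IsBr A β) (hm : m < A) :
    ∃ X ι Y, β = X ++ (ι ++ Y) ∧ IsB X ∧ Irr ι ∧ IsB Y ∧ wd Y ≤ m ∧ m < wd Y + wd ι := by
  obtain ⟨X, ι, Y, h1, h2, h3, h4, h5, h6⟩ := exists_triple hβ (m := A - 1 - m) (by omega)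
  have h7 : A = wd X + (wd ι + wd Y) := by
    rw [← hβ.wd, h1, wd_append h2 (h3.1.append h4), wd_append h3.1 h4]
  exact ⟨X, ι, Y, h1, h2, h3, h4, by omega, by omega⟩

/-- the mark lemma, with marks at distance less than `r` from the end -/
theorem mark_le_r (r : ℕ) (P : List St → Prop) (Q : L3 → Prop) (g : List St → PS) (h : L3 → PS)
    (hP : ∀ β, P β → IsB β ∧ r ≤ wd β)
    (hPQ : ∀ t, IsT t → wd t.2.2 < r → P (cat3 t) → Q t ∧ g (cat3 t) ≤ h t) :
    cst (r : ℝ≥0∞) * fs (fun β => ii (P β) * g β) ≤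
      fs (fun t : L3 => ii (IsT t ∧ Q t) * (cst (wd t.2.1 : ℝ≥0∞) * h t)) := by
  have h1 : cst (r : ℝ≥0∞) * fs (fun β => ii (P β) * g β) =
      fs (fun q : ℕ × List St => ii (q.1 < r ∧ P q.2) * g q.2) := by
    rw [cst_nat_eq, fs_mul_fs]
    congr 1; ext1 q
    rw [ii_and]; ring
  have h2 : fs (fun t : L3 => ii (IsT t ∧ Q t) * (cst (wd t.2.1 : ℝ≥0∞) * h t)) =
      fs (fun q : ℕ × L3 => ii (q.1 < wd q.2.2.1 ∧ (IsT q.2 ∧ Q q.2)) * h q.2) := by
    conv_rhs => rw [fs_prod, fs_comm]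
    apply fs_congr
    intro t
    rw [cst_nat_eq]
    simp only
    calc ii (IsT t ∧ Q t) * (fs (fun m => ii (m < wd t.2.1) * 1) * h t)
        = (ii (IsT t ∧ Q t) * h t) * fs (fun m => ii (m < wd t.2.1) * 1) := by ring
      _ = _ := by
        rw [mul_fs]
        congr 1; ext1 m
        rw [ii_and (m < wd t.2.1)]; ring
  rw [h1, h2]
  refine fs_cover _ _ _ _ (fun q : ℕ × L3 => (wd q.2.2.2 + q.1, cat3 q.2)) ?_
  rintro ⟨m, β⟩ ⟨hm, hβ⟩
  simp only at hm hβ
  obtain ⟨hB, hr⟩ := hP β hβ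
  obtain ⟨X, ι, Y, rfl, hX, hι, hY, h3, h4⟩ := exists_triple_r hB.br (m := m) (by omega)
  have hT : IsT (X, ι, Y) := ⟨hX, hι, hY⟩
  obtain ⟨h5, h6⟩ := hPQ _ hT (by simp only; omega) hβ
  refine ⟨(m - wd Y, (X, ι, Y)), ⟨?_, hT, h5⟩, ?_, h6⟩
  · simp only; omega
  · simp only [Prod.mk.injEq]
    exact ⟨by omega, rfl⟩

/-- factorisation of the sum over triples -/
lemma triple_sum_r (r W : ℕ) (β : List St) (F : List St → PS) :
    fs (fun t : L3 => ii (IsT t ∧ ((wd t.1 ≤ W ∧ CC r β t.1) ∧ wd t.2.1 ≤ W ∧ wd t.2.2 ≤ r)) *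
      (cst (wd t.2.1 : ℝ≥0∞) * (xl t.1 * xl t.2.1 * (xl t.2.2 * F t.2.2)))) =
    Nc r W β * (Ks W * fs (fun X => ii (IsB X ∧ wd X ≤ r) * (xl X * F X))) := by
  unfold Nc Ks
  rw [fs_mul_fs, fs_mul_fs]
  apply fs_congr
  rintro ⟨a, b, c⟩
  simp only [IsT, ii_and]
  ring

lemma mark_step_r (r k W : ℕ) (hW : 2 * r ≤ W) (hk : k ≤ r) (β : List St) (F : List St → PS)
    (hF : ∀ u X, IsB u → F (u ++ X) ≤ F X) :
    cst (r : ℝ≥0∞) * fs (fun β' => ii ((IsB β' ∧ r ≤ wd β' ∧ wd β' < r + k) ∧ CC r β β') *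
      (xl β' * F β')) ≤
    Nc r W β * (Ks W * fs (fun X => ii (IsB X ∧ wd X ≤ r) * (xl X * F X))) := by
  rw [← triple_sum_r]
  refine mark_le_r r (fun β' => (IsB β' ∧ r ≤ wd β' ∧ wd β' < r + k) ∧ CC r β β')
    (fun t => ((wd t.1 ≤ W ∧ CC r β t.1) ∧ wd t.2.1 ≤ W ∧ wd t.2.2 ≤ r))
    (fun β' => xl β' * F β') (fun t => xl t.1 * xl t.2.1 * (xl t.2.2 * F t.2.2)) ?_ ?_
  · rintro β' ⟨⟨h1, h2, h3⟩, h4⟩
    exact ⟨h1, h2⟩
  · rintro t ht hlt ⟨⟨h1, h2, h3⟩, h4⟩
    have h5 := ht.wd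
    refine ⟨⟨⟨by omega, ?_⟩, by omega, by omega⟩, ?_⟩
    · unfold cat3 at h4
      exact h4.pre ht.1 (ht.2.1.1.append ht.2.2)
    · unfold cat3
      rw [xl_append, xl_append]
      calc xl t.1 * (xl t.2.1 * xl t.2.2) * F (t.1 ++ (t.2.1 ++ t.2.2))
          ≤ xl t.1 * (xl t.2.1 * xl t.2.2) * F t.2.2 := by
            gcongr
            exact (hF _ _ ht.1).trans (hF _ _ ht.2.1.1)
        _ = _ := by ring

/-- `1 + κ G` -/
noncomputable def G1c (r k W : ℕ) : PS := 1 + cst ((r : ℝ≥0∞)⁻¹) * Ks W * Gc r k W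

lemma Rc_le_Nc {r k W : ℕ} (hr : 1 ≤ r) (hW : 2 * r ≤ W) (hk : k ≤ r) (β : List St) :
    Rc r k β ≤ Nc r W β * G1c r k W := by
  have h1 := mark_step_r r k W hW hk β (Rc r k) (fun u X hu => Rc_suf r k u X hu)
  have h2 := Rc_le_one_add r k β
  set S := fs (fun β' => ii ((IsB β' ∧ r ≤ wd β' ∧ wd β' < r + k) ∧ CC r β β') *
      (xl β' * Rc r k β')) with hS
  have h3 : S ≤ cst ((r : ℝ≥0∞)⁻¹) * (Nc r W β * (Ks W * Gc r k W)) := by
    calc S = cst ((r : ℝ≥0∞)⁻¹) * (cst (r : ℝ≥0∞) * S) := by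
          rw [← mul_assoc, cst_inv_mul hr, one_mul]
      _ ≤ _ := mul_le_mul' le_rfl h1
  calc Rc r k β ≤ 1 + S := h2
    _ ≤ Nc r W β * 1 + cst ((r : ℝ≥0∞)⁻¹) * (Nc r W β * (Ks W * Gc r k W)) := by
        refine add_le_add ?_ h3
        rw [mul_one]; exact one_le_Nc r W β
    _ = _ := by unfold G1c; ring

/-- one strand with both folds -/
noncomputable def yc (r l W : ℕ) : PS := fs (fun X => ii (IsB X ∧ wd X ≤ r) *
  (xl X * fs (fun β' => ii (IsBr (r + l) β' ∧ CC r X β') * (xl β' * Nc r W β'))))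

lemma Gc_le {r k W : ℕ} (hr : 1 ≤ r) (hW : 2 * r ≤ W) (hk : k ≤ r) :
    Gc r k W ≤ Us W + ∑ l ∈ Finset.range k, yc r l W * G1c r l W := by
  calc Gc r k W = fs (fun X => ii (IsB X ∧ wd X ≤ r) * xl X + ∑ l ∈ Finset.range k,
          ii (IsB X ∧ wd X ≤ r) * (xl X * fs (fun β' => ii (IsBr (r + l) β' ∧ CC r X β') *
      (xl β' * Rc r l β')))) := by
        unfold Gc
        apply fs_congr
        intro X
        rw [Rc_eq, mul_add, mul_one, mul_add, Finset.mul_sum, Finset.mul_sum]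
    _ ≤ fs (fun X => ii (IsB X ∧ wd X ≤ W) * xl X + ∑ l ∈ Finset.range k,
          (ii (IsB X ∧ wd X ≤ r) * (xl X * fs (fun β' => ii (IsBr (r + l) β' ∧ CC r X β') *
      (xl β' * Nc r W β')))) * G1c r l W) := by
        apply fs_mono
        intro X
        refine add_le_add ?_ (Finset.sum_le_sum ?_)
        · gcongr
          exact ii_mono fun h => ⟨h.1, h.2.trans (by omega)⟩
        intro l hl
        rw [Finset.mem_range] at hl
        rw [mul_assoc, mul_assoc, fs_mul]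
        gcongr
        apply fs_mono
        intro β'
        by_cases h : IsBr (r + l) β' ∧ CC r X β'
        · rw [ii_of h, one_mul, one_mul, mul_assoc]
          gcongr
          exact Rc_le_Nc hr hW (by omega) β'
        · rw [ii_not h, zero_mul, zero_mul, zero_mul]
    _ = _ := by
        rw [fs_add, fs_sum]
        congr 1
        apply Finset.sum_congr rfl
        intro l _
        rw [← fs_mul]
        rfl

/-- the increments in the Gronwall inequality -/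
noncomputable def ac (r l W : ℕ) : PS := cst ((r : ℝ≥0∞)⁻¹) * Ks W * yc r l W

lemma G1c_le {r k W : ℕ} (hr : 1 ≤ r) (hW : 2 * r ≤ W) (hk : k ≤ r) :
    G1c r k W ≤ (1 + cst ((r : ℝ≥0∞)⁻¹) * Ks W * Us W) +
      ∑ l ∈ Finset.range k, ac r l W * G1c r l W := by
  calc G1c r k W = 1 + cst ((r : ℝ≥0∞)⁻¹) * Ks W * Gc r k W := rfl
    _ ≤ 1 + cst ((r : ℝ≥0∞)⁻¹) * Ks W * (Us W + ∑ l ∈ Finset.range k, yc r l W * G1c r l W) := by
        gcongr
        exact Gc_le hr hW hk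
    _ = _ := by
        rw [mul_add, Finset.mul_sum, ← add_assoc]
        congr 1
        apply Finset.sum_congr rfl
        intro l _
        unfold ac; ring

lemma sum_yc_le {r k W : ℕ} (hW : 2 * r ≤ W) (hk : k ≤ r) :
    cst (r : ℝ≥0∞) * ∑ l ∈ Finset.range k, yc r l W ≤ Ks W * (Ec r W * Ec r W) := by
  calc cst (r : ℝ≥0∞) * ∑ l ∈ Finset.range k, yc r l W
      = fs (fun X => ii (IsB X ∧ wd X ≤ r) * (xl X * (cst (r : ℝ≥0∞) *
          ∑ l ∈ Finset.range k, fs (fun β' => ii (IsBr (r + l) β' ∧ CC r X β') *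
            (xl β' * Nc r W β'))))) := by
        unfold yc
        rw [← fs_sum, mul_fs]
        apply fs_congr
        intro X
        rw [← Finset.mul_sum, ← Finset.mul_sum]; ring
    _ ≤ fs (fun X => ii (IsB X ∧ wd X ≤ r) * (xl X * (Nc r W X * (Ks W * Ec r W)))) := by
        refine fs_mono fun X => mul_le_mul' le_rfl (mul_le_mul' le_rfl ?_)
        refine (mul_le_mul' le_rfl (comb_sum r k (CC r X) (fun β' => xl β' * Nc r W β'))).trans ?_
        exact mark_step_r r k W hW hk X (Nc r W) (fun u X hu => Nc_suf r W u X hu)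
    _ = fs (fun X => (ii (IsB X ∧ wd X ≤ r) * (xl X * Nc r W X)) * (Ks W * Ec r W)) := by
        apply fs_congr
        intro X
        ring
    _ = Ec r W * (Ks W * Ec r W) := by rw [← fs_mul]; rfl
    _ = _ := by ring

lemma sum_ac_le {r k W : ℕ} (hr : 1 ≤ r) (hW : 2 * r ≤ W) (hk : k ≤ r) :
    ∑ l ∈ Finset.range k, ac r l W ≤
      (cst ((r : ℝ≥0∞)⁻¹) * (Ks W * Ec r W)) * (cst ((r : ℝ≥0∞)⁻¹) * (Ks W * Ec r W)) := by
  have h1 := sum_yc_le hW hk
  have h2 : ∑ l ∈ Finset.range k, yc r l W ≤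
      cst ((r : ℝ≥0∞)⁻¹) * (Ks W * (Ec r W * Ec r W)) := by
    calc _ = cst ((r : ℝ≥0∞)⁻¹) * (cst (r : ℝ≥0∞) * ∑ l ∈ Finset.range k, yc r l W) := by
          rw [← mul_assoc, cst_inv_mul hr, one_mul]
      _ ≤ _ := by gcongr
  calc ∑ l ∈ Finset.range k, ac r l W
      = cst ((r : ℝ≥0∞)⁻¹) * Ks W * ∑ l ∈ Finset.range k, yc r l W := by
        unfold ac; rw [Finset.mul_sum]
    _ ≤ cst ((r : ℝ≥0∞)⁻¹) * Ks W *
        (cst ((r : ℝ≥0∞)⁻¹) * (Ks W * (Ec r W * Ec r W))) := by gcongr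
    _ = _ := by ring

/-- the truncated bound at one dyadic scale -/
theorem scale_bound_r {N r : ℕ} (hr : 1 ≤ r) {c : ℝ} (hc : 0 ≤ c)
    (hE : LeT N (Ec r (2 * r)) (cst (ENNReal.ofReal c) * Us (16 * r))) :
    NmT N (ENNReal.ofReal ((2 * r + 1) * 5 * Real.exp (1024 * c ^ 2))) (Rc r r []) := by
  have hr0 : (r : ℝ≥0∞) ≠ 0 := by simp; omega
  have hrt : (r : ℝ≥0∞) ≠ ⊤ := ENNReal.natCast_ne_top r
  have hrr : (0 : ℝ) < r := by exact_mod_cast hr
  -- KU
  have nKU : Nm 4 (cst ((r : ℝ≥0∞)⁻¹) * Ks (2 * r) * Us (2 * r)) := by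
    have h1 := (Nm_cst ((r : ℝ≥0∞)⁻¹)).mul (Nm_KU (2 * r))
    have e : cst ((r : ℝ≥0∞)⁻¹) * Ks (2 * r) * Us (2 * r) =
        cst ((r : ℝ≥0∞)⁻¹) * (Ks (2 * r) * Us (2 * r)) := by ring
    rw [e]
    refine h1.weaken ?_
    have : ((2 * (2 * r) : ℕ) : ℝ≥0∞) = r * 4 := by push_cast; ring
    rw [this, ← mul_assoc, ENNReal.inv_mul_cancel hr0 hrt, one_mul]
  -- KE
  have nKE : NmT N (ENNReal.ofReal (32 * c))
      (cst ((r : ℝ≥0∞)⁻¹) * (Ks (2 * r) * Ec r (2 * r))) := by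
    have h1 : LeT N (cst ((r : ℝ≥0∞)⁻¹) * (Ks (2 * r) * Ec r (2 * r)))
        (cst ((r : ℝ≥0∞)⁻¹) * (cst (ENNReal.ofReal c) * (Ks (16 * r) * Us (16 * r)))) := by
      have g1 : LeT N (Ks (2 * r) * Ec r (2 * r))
          (Ks (16 * r) * (cst (ENNReal.ofReal c) * Us (16 * r))) :=
        (hE.mul_left (Ks (2 * r))).trans (LeT.mul_right (LeT.of_le (Ks_mono (by omega))) _)
      have g2 := g1.mul_left (cst ((r : ℝ≥0∞)⁻¹))
      have e : cst ((r : ℝ≥0∞)⁻¹) * (Ks (16 * r) * (cst (ENNReal.ofReal c) * Us (16 * r))) =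
        cst ((r : ℝ≥0∞)⁻¹) * (cst (ENNReal.ofReal c) * (Ks (16 * r) * Us (16 * r))) := by ring
      rwa [e] at g2
    refine NmT.mono' ?_ h1
    have h2 := (Nm_cst ((r : ℝ≥0∞)⁻¹)).mul ((Nm_cst (ENNReal.ofReal c)).mul (Nm_KU (16 * r)))
    refine (h2.weaken ?_).toT N
    have : ((2 * (16 * r) : ℕ) : ℝ≥0∞) = r * 32 := by push_cast; ring
    rw [this, ENNReal.ofReal_mul (by norm_num)]
    have h8 : ENNReal.ofReal 32 = 32 := by norm_num
    rw [h8]
    calc (r : ℝ≥0∞)⁻¹ * (ENNReal.ofReal c * (r * 32))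
        = ((r : ℝ≥0∞)⁻¹ * r) * (32 * ENNReal.ofReal c) := by ring
      _ = 32 * ENNReal.ofReal c := by rw [ENNReal.inv_mul_cancel hr0 hrt, one_mul]
      _ ≤ _ := le_rfl
  have nA : NmT N (ENNReal.ofReal (1024 * c ^ 2)) (∑ l ∈ Finset.range r, ac r l (2 * r)) := by
    refine NmT.mono ?_ (sum_ac_le hr le_rfl le_rfl)
    refine (nKE.mul nKE).weaken ?_
    rw [← ENNReal.ofReal_mul (by positivity)]
    apply ENNReal.ofReal_le_ofReal
    nlinarith
  have nP : NmT N (ENNReal.ofReal (Real.exp (1024 * c ^ 2)))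
      (∏ l ∈ Finset.range r, (1 + ac r l (2 * r))) :=
    (NmT_eb (by positivity) nA r).mono (prod_le_eb _ r)
  have h1 : Rc r r [] ≤ Us (2 * r) * ((1 + cst ((r : ℝ≥0∞)⁻¹) * Ks (2 * r) * Us (2 * r)) *
      ∏ l ∈ Finset.range r, (1 + ac r l (2 * r))) := by
    refine (Rc_le_Nc hr le_rfl le_rfl []).trans ?_
    gcongr
    · exact Nc_nil_le _ _
    · exact gronwall (fun k => G1c r k (2 * r)) (fun l => ac r l (2 * r)) _ r
        (fun k hk => G1c_le hr le_rfl hk) r le_rfl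
  refine NmT.mono ?_ h1
  refine (((Nm_U (2 * r)).toT N).mul (((Nm_one.add nKU).toT N).mul nP)).weaken ?_
  have e1 : ((2 * r + 1 : ℕ) : ℝ≥0∞) = ENNReal.ofReal (2 * r + 1) := by
    rw [← ENNReal.ofReal_natCast]; congr 1; push_cast; ring
  have e2 : (1 + 4 : ℝ≥0∞) = ENNReal.ofReal 5 := by norm_num
  rw [e1, e2, ← ENNReal.ofReal_mul (by norm_num), ← ENNReal.ofReal_mul (by positivity)]
  apply ENNReal.ofReal_le_ofReal
  nlinarith [Real.exp_pos (1024 * c ^ 2)]

/-- the truncated bound for all scales -/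
theorem all_scales_r {N : ℕ} {c : ℝ} (hc : 0 ≤ c) (M : ℕ) (hM : ∀ i < M, 2 ^ i ≤ N)
    (hE : ∀ r, 1 ≤ r → r ≤ N → LeT N (Ec r (2 * r)) (cst (ENNReal.ofReal c) * Us (16 * r))) :
    NmT N (ENNReal.ofReal (∏ i ∈ Finset.range M, ((2 * 2 ^ i + 1) * 5 * Real.exp (1024 * c ^ 2))))
      (Rr 1 (2 ^ M - 1) []) := by
  have h0 : Rr 1 (2 ^ M - 1) [] ≤ ∏ i ∈ Finset.range M, Rc (2 ^ i) (2 ^ i) [] := by
    refine (Rr_prod M).trans (Finset.prod_le_prod' fun i _ => ?_)
    exact Rr_le_Rc _ _ _ (Or.inl rfl)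
  refine NmT.mono ?_ h0
  rw [ENNReal.ofReal_prod_of_nonneg (fun i _ => by positivity)]
  apply NmT.prod
  intro i hi
  rw [Finset.mem_range] at hi
  have hp : 1 ≤ 2 ^ i := Nat.one_le_two_pow
  have := scale_bound_r (r := 2 ^ i) hp hc (hE _ hp (hM i hi))
  push_cast at this
  exact this

/-- half-plane walks versus bridges under a truncated hypothesis -/
theorem hh_le_r {N : ℕ} (hN : 2 ≤ N) {c : ℝ} (hc : 0 ≤ c)
    (hE : ∀ r, 1 ≤ r → r ≤ N → LeT N (Ec r (2 * r)) (cst (ENNReal.ofReal c) * Us (16 * r))) :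
    hh N ≤ ENNReal.ofReal (Real.exp (4 * Real.log N * (7 * Real.log N + 1024 * c ^ 2))) * bn N := by
  have hNr : (2 : ℝ) ≤ N := by exact_mod_cast hN
  have hN0 : (0 : ℝ) < N := by linarith
  have hl2 := log_two_gt'
  have hlN : Real.log 2 ≤ Real.log N := Real.log_le_log (by norm_num) hNr
  obtain ⟨M, hMdef⟩ : ∃ M, M = Nat.log 2 N + 1 := ⟨_, rfl⟩
  have hM1 : N < 2 ^ M := by rw [hMdef]; exact Nat.lt_pow_succ_log_self (by norm_num) N
  have hM2 : ∀ i < M, 2 ^ i ≤ N := by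
    intro i hi
    calc 2 ^ i ≤ 2 ^ (Nat.log 2 N) := Nat.pow_le_pow_right (by norm_num) (by omega)
      _ ≤ N := Nat.pow_log_le_self 2 (by omega)
  have h1 := hh_le_of_NmT (N := N) (by omega) (M := M) (by omega) (all_scales_r hc M hM2 hE)
  refine h1.trans ?_
  gcongr
  have hfac : ∀ i ∈ Finset.range M, ((2 * (2:ℝ) ^ i + 1) * 5 * Real.exp (1024 * c ^ 2)) ≤
      Real.exp (7 * Real.log N + 1024 * c ^ 2) := by
    intro i hi
    rw [Finset.mem_range] at hi
    have h2 : ((2 : ℝ) ^ i) ≤ N := by exact_mod_cast hM2 i hi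
    rw [Real.exp_add]
    gcongr
    have h3 : (15 : ℝ) ≤ Real.exp (6 * Real.log N) := by
      have : Real.exp 3 ≤ Real.exp (6 * Real.log N) := by
        apply Real.exp_le_exp.mpr; linarith
      refine le_trans ?_ this
      have h3 : (2.7:ℝ) ≤ Real.exp 1 := by
        have := Real.exp_one_gt_d9; linarith
      calc (15:ℝ) ≤ 2.7 ^ 3 := by norm_num
        _ ≤ (Real.exp 1) ^ 3 := by gcongr
        _ = Real.exp 3 := by rw [← Real.exp_nat_mul]; norm_num
    have h4 : Real.exp (7 * Real.log N) = Real.exp (6 * Real.log N) * N := by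
      rw [show 7 * Real.log N = 6 * Real.log N + Real.log N by ring, Real.exp_add,
        Real.exp_log hN0]
    rw [h4]
    nlinarith
  have hM3 : (M : ℝ) ≤ 4 * Real.log N := by
    have h2 : ((Nat.log 2 N : ℕ) : ℝ) * Real.log 2 ≤ Real.log N := by
      rw [← Real.log_pow]
      apply Real.log_le_log (by positivity)
      exact_mod_cast Nat.pow_log_le_self 2 (by omega : N ≠ 0)
    rw [hMdef]
    push_cast
    nlinarith
  calc ∏ i ∈ Finset.range M, ((2 * (2:ℝ) ^ i + 1) * 5 * Real.exp (1024 * c ^ 2))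
      ≤ ∏ i ∈ Finset.range M, Real.exp (7 * Real.log N + 1024 * c ^ 2) :=
        Finset.prod_le_prod (fun i _ => by positivity) hfac
    _ = Real.exp (M * (7 * Real.log N + 1024 * c ^ 2)) := by
        rw [Finset.prod_const, Finset.card_range, ← Real.exp_nat_mul]
    _ ≤ _ := by
        apply Real.exp_le_exp.mpr
        have : 0 ≤ 7 * Real.log N + 1024 * c ^ 2 := by
          have : 0 ≤ Real.log N := by linarith
          positivity
        gcongr

end Pool.Agent.W387.S
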