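import Pool.Agent.W387.S.Mat
import Pool.Agent.W387.S.Chn
import Pool.Agent.H982R3.EsBound
import Pool.Agent.H982R3.RSum

/-!
The sum over extendable non-crossing pairs of bridges, with one logarithm.
-/

set_option linter.unusedSectionVars false

namespace Pool.Agent.W387.S

open H982
open scoped ENNReal
open PowerSeries
open H982F (BrSet mem_BrSet FBr SawSet mem_SawSet)
open H982R (Wk rf tm rf_le rf_gt rf_rf)
open H500S (tp tp_le tp_max tp_last tp_eq up_rf_ge)

variable [L : H982.Lat]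

theorem adj_sub {p q c : ℤ × ℤ} (h : H982F.Adj p q) :
    H982F.Adj (p.1 - c.1, p.2 - c.2) (q.1 - c.1, q.2 - c.2) := by
  unfold H982F.Adj at *
  cases hk : L.kind <;> simp only [hk] at h ⊢ <;> omega

theorem par_sub {p c : ℤ × ℤ} (h : H982F.Par p) (hc : H982F.Par c) :
    H982F.Par (p.1 - c.1, p.2 - c.2) := by
  intro hk
  have := h hk
  have := hc hk
  simp only
  omega

theorem exD_of {o : ℤ} (ho : o = 1 ∨ o = -1) {X Y : List St} (hX : IsB X) (hY : IsB Y)
    (h : ED X Y) : ExD (X ++ Y).length (pf o (X ++ sg Y)) := by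
  obtain ⟨v, hv, hN, hw⟩ := h
  have hS := saw_fold hX (hY.append hv) hN
  have H := saw_pf ho hS
  have hZ : X ++ sg (Y ++ v) = (X ++ sg Y) ++ sg v := by rw [sg_append, List.append_assoc]
  rw [hZ] at H
  have hlen : (X ++ Y).length = (X ++ sg Y).length := by simp
  obtain ⟨N, hNd⟩ : ∃ N, N = (X ++ sg Y).length := ⟨_, rfl⟩
  have hlen2 : ((X ++ sg Y) ++ sg v).length = N + v.length := by
    rw [List.length_append, length_sg, hNd]
  rw [hlen2] at H
  rw [hlen, ← hNd]
  have hle : ∀ i, i ≤ N → pf o (X ++ sg Y) i = pf o ((X ++ sg Y) ++ sg v) i := by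
    intro i hi
    unfold pf
    rw [take_append_le (X := X ++ sg Y) (by omega)]
  have hgt : ∀ l, pf o ((X ++ sg Y) ++ sg v) (N + l) =
      (dx (X ++ sg Y) - dx (v.take l),
        o * dy ((X ++ sg Y) ++ (sg v).take l)) := by
    intro l
    unfold pf
    rw [take_append_gt (X := X ++ sg Y) (by omega), ← hNd, show N + l - N = l by omega]
    have h1 : (sg v).take l = sg (v.take l) := by unfold sg; rw [List.map_take]
    rw [h1]
    simp only [dx_append, dx_sg, Prod.mk.injEq, and_true]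
    ring
  have hNe : (pf o (X ++ sg Y) N).1 = dx (X ++ sg Y) := by
    rw [pf_ge o (by omega)]
  refine ⟨v.length, fun l => pf o ((X ++ sg Y) ++ sg v) (N + l), ?_, ?_, ?_, ?_, ?_, ?_⟩
  · simp only [Nat.add_zero]
    exact (hle N le_rfl).symm
  · intro l hl
    exact H.adj (N + l) (by omega)
  · intro l
    exact H.par (N + l)
  · intro l h1 h2
    simp only
    rw [hgt, hNe]
    simp only
    have h3 : v ≠ [] := by
      rintro rfl
      simp at h2
      omega
    have h4 := hv.br.hp (v.take l) (List.take_prefix _ _) (take_ne_nil h3 (by omega))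
    omega
  · intro l h1 h2 i hi
    rw [hle i hi]
    intro h3
    have := H.inj i (N + l) (by omega) (by omega) h3
    omega
  · simp only
    rw [hgt]
    simp only
    rw [List.take_length, dx_append, dx_sg]
    have h1 := (hX).wd_eq_dx
    have h2 := (hY.append hv).wd_eq_dx
    rw [dx_append] at h2
    have h3 : (wd X : ℤ) ≤ wd (Y ++ v) := by exact_mod_cast hw
    omega

theorem exU_of {o : ℤ} (ho : o = 1 ∨ o = -1) {X Y : List St} (hX : IsB X) (hY : IsB Y)
    (h : EU X Y) : ExU (X ++ Y).length (pf o (X ++ sg Y)) := by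
  obtain ⟨u, hu, hN, hw⟩ := h
  have hS := saw_fold (hu.append hX) hY hN
  obtain ⟨o', ho'⟩ : ∃ o', o' = o * sgm ^ u.length := ⟨_, rfl⟩
  have ho1 : o' = 1 ∨ o' = -1 := by rw [ho']; exact osg ho _
  have ho2 : o' * sgm ^ u.length = o := by
    rw [ho', mul_assoc, ← mul_pow, sgm_mul, one_pow, mul_one]
  have H := saw_pf ho1 hS
  have hZ : (u ++ X) ++ sg Y = u ++ (X ++ sg Y) := by rw [List.append_assoc]
  rw [hZ] at H
  have hlen : (X ++ Y).length = (X ++ sg Y).length := by simp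
  obtain ⟨N, hNd⟩ : ∃ N, N = (X ++ sg Y).length := ⟨_, rfl⟩
  have hlen2 : (u ++ (X ++ sg Y)).length = u.length + N := by rw [List.length_append, hNd]
  rw [hlen2] at H
  rw [hlen, ← hNd]
  obtain ⟨z, hz⟩ : ∃ z, z = pf o' (u ++ (X ++ sg Y)) := ⟨_, rfl⟩
  rw [← hz] at H
  have hzu : z u.length = (dx u, o' * dy u) := by
    rw [hz]
    unfold pf
    rw [List.take_left' rfl]
  have hle : ∀ i, z (u.length + i) = ((pf o (X ++ sg Y) i).1 + (z u.length).1,
      (pf o (X ++ sg Y) i).2 + (z u.length).2) := by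
    intro i
    rw [hzu, hz]
    unfold pf
    rw [List.take_length_add_append, dx_append, dy_append]
    ext
    · simp only; ring
    · simp only
      have : o' * (dy u + sgm ^ u.length * dy ((X ++ sg Y).take i)) =
          o' * dy u + (o' * sgm ^ u.length) * dy ((X ++ sg Y).take i) := by ring
      rw [this, ho2]
      ring
  have hlow : ∀ l, l ≤ u.length → (z (u.length - l)).1 = dx (u.take (u.length - l)) := by
    intro l _
    rw [hz]
    unfold pf
    rw [take_append_le (by omega)]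
  have hdu := hu.wd_eq_dx
  refine ⟨u.length, fun l => ((z (u.length - l)).1 - (z u.length).1,
    (z (u.length - l)).2 - (z u.length).2), ?_, ?_, ?_, ?_, ?_, ?_⟩
  · simp [pf_zero]
  · intro l hl
    have h1 := H.adj (u.length - (l + 1)) (by omega)
    rw [show u.length - (l + 1) + 1 = u.length - l by omega] at h1
    exact adj_sub h1
  · intro l
    exact par_sub (H.par _) (H.par _)
  · intro l hl
    simp only
    rw [hlow l hl, hzu]
    have := hu.br.le (List.take_prefix (u.length - l) u)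
    simp only
    omega
  · intro l h1 h2 i hi h3
    have h4 : z (u.length + i) = z (u.length - l) := by
      rw [hle i, h3]
      ext <;> simp
    have := H.inj (u.length + i) (u.length - l) (by omega) (by omega) h4
    omega
  · intro i hi
    simp only [Nat.sub_self]
    have h0 : (z 0).1 = 0 := by rw [hz, pf_zero]
    rw [h0, hzu]
    simp only
    have h3 : (wd Y : ℤ) ≤ wd (u ++ X) := by exact_mod_cast hw
    rw [wd_append hu hX] at h3
    push_cast at h3
    have h4 := hX.wd_eq_dx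
    have h5 := hY.wd_eq_dx
    have h6 : 0 ≤ dx u := by omega
    unfold pf
    simp only
    rcases Nat.lt_or_ge X.length i with h7 | h7
    · rw [take_append_gt h7.le]
      have h8 : (sg Y).take (i - X.length) = sg (Y.take (i - X.length)) := by
        unfold sg; rw [List.map_take]
      rw [h8, dx_append, dx_sg]
      have := hY.br.le (List.take_prefix (i - X.length) Y)
      omega
    · rw [take_append_le h7]
      have := (hX.br.hp.prew (List.take_prefix i X)).dx_nonneg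
      omega

/-- extendable pairs of nonempty bridges, with orientation `o` passed upwards -/
def PU (o : ℤ) (W : ℕ) (p : LL) : Prop :=
  ((IsB p.1 ∧ wd p.1 ≤ W) ∧ (IsB p.2 ∧ wd p.2 ≤ W) ∧ EU p.1 p.2 ∧ ED p.1 p.2) ∧
    p.1 ≠ [] ∧ p.2 ≠ [] ∧ H982F.Up (pf o (p.1 ++ p.2)) p.1.length

theorem ov_of {o : ℤ} (ho : o = 1 ∨ o = -1) {W : ℕ} {p : LL} (hp : PU o W p) :
    tp (p.1 ++ p.2).length (pf o (p.1 ++ sg p.2)) = p.1.length ∧
    rf (pf o (p.1 ++ sg p.2)) p.1.length = pf o (p.1 ++ p.2) ∧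
    ∀ α Lm β Lb : ℤ, α ≤ wd p.1 → (wd p.1 : ℤ) < Lm → β ≤ wd p.2 → (wd p.2 : ℤ) < Lb →
      OV (p.1 ++ p.2).length α Lm β Lb (pf o (p.1 ++ sg p.2)) := by
  obtain ⟨X, Y⟩ := p
  obtain ⟨⟨⟨hX, hXW⟩, ⟨hY, hYW⟩, hEU, hED⟩, hX0, hY0, hup⟩ := hp
  simp only at *
  have hN : NCg X Y := by
    obtain ⟨u, -, h, -⟩ := hEU
    exact h.suf
  have hwX := hX.wd_eq_dx
  have hwY := hY.wd_eq_dx
  have hlY : 0 < Y.length := List.length_pos_iff.mpr hY0
  have hlen : (X ++ Y).length = X.length + Y.length := by simp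
  have hlen' : (X ++ sg Y).length = (X ++ Y).length := by simp
  have hS : H982F.Saw (X ++ Y).length (pf o (X ++ sg Y)) := by
    have := saw_pf ho (saw_fold hX hY hN)
    rwa [hlen'] at this
  have hle : ∀ i, i ≤ X.length → (pf o (X ++ sg Y) i).1 = dx (X.take i) := by
    intro i hi
    unfold pf
    rw [take_append_le hi]
  have hgt : ∀ i, X.length ≤ i → (pf o (X ++ sg Y) i).1 = dx X - dx (Y.take (i - X.length)) := by
    intro i hi
    unfold pf
    rw [take_append_gt hi]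
    have h8 : (sg Y).take (i - X.length) = sg (Y.take (i - X.length)) := by
      unfold sg; rw [List.map_take]
    rw [h8, dx_append, dx_sg]
    ring
  have hX1 : (pf o (X ++ sg Y) X.length).1 = dx X := by
    rw [hle _ le_rfl, List.take_length]
  have htp : tp (X ++ Y).length (pf o (X ++ sg Y)) = X.length := by
    refine tp_eq (by omega) (fun i hi => ?_) (fun i h1 h2 => ?_)
    · rw [hX1, hle i hi]
      have := hX.br.le (List.take_prefix i X)
      omega
    · rw [hX1, hgt i h1.le]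
      have := hY.br.hp (Y.take (i - X.length)) (List.take_prefix _ _)
        (take_ne_nil hY0 (by omega))
      omega
  have hrf : rf (pf o (X ++ sg Y)) X.length = pf o (X ++ Y) := by
    have h1 := fl_pf o (X := X) (Y := Y) hX
    have h2 : rf (pf o (X ++ Y)) X.length = pf o (X ++ sg Y) := by
      unfold H982R.rf
      rw [← h1]
      congr 1
      unfold pf
      rw [List.take_left' rfl]
      exact hwX.symm
    rw [← h2, rf_rf]
  have hNe : (pf o (X ++ sg Y) (X ++ Y).length).1 = dx X - dx Y := by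
    rw [hgt _ (by omega), show (X ++ Y).length - X.length = Y.length by omega, List.take_length]
  refine ⟨htp, hrf, ?_⟩
  intro α Lm β Lb h1 h2 h3 h4
  refine ⟨hS, ?_, ?_, ?_, ?_, ?_, ?_, ?_, exD_of ho hX hY hED, exU_of ho hX hY hEU⟩
  · rw [htp, hrf]
    exact fbr_pf ho (hX.br.append hY.br)
  · rw [htp]; omega
  · rw [htp]
    have h5 : H982F.Up (rf (pf o (X ++ Y)) X.length) X.length := up_rf_ge le_rfl hup
    have h6 : rf (pf o (X ++ Y)) X.length = pf o (X ++ sg Y) := by rw [← hrf, rf_rf]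
    rw [h6] at h5
    exact h5
  · rw [htp, hX1]; omega
  · rw [htp, hX1]; omega
  · rw [htp, hX1, hNe]; omega
  · rw [htp, hX1, hNe]; omega

open scoped Classical in
/-- all extendable folded walks with both widths below `2 ^ (G + 1)` -/
noncomputable def VA (N G : ℕ) : Finset Wk :=
  (Finset.range (G + 1) ×ˢ Finset.range (G + 1)).biUnion
    (fun g => VX N (2 ^ g.1) (2 ^ (g.1 + 1)) (2 ^ g.2) (2 ^ (g.2 + 1)))

theorem card_VA_le (N W : ℕ) (hW : 1 ≤ W) :
    (VA N (Nat.log 2 W)).card ≤ 4 * (Nat.log 2 W + 1) * (BrSet N (4 * W)).card := by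
  classical
  obtain ⟨G, hG⟩ : ∃ G, G = Nat.log 2 W := ⟨_, rfl⟩
  rw [← hG]
  have hGW : 2 ^ G ≤ W := by rw [hG]; exact Nat.pow_log_le_self 2 (by omega)
  unfold VA
  refine Finset.card_biUnion_le.trans ?_
  have h1 : ∀ g ∈ Finset.range (G + 1) ×ˢ Finset.range (G + 1),
      (VX N (2 ^ g.1) (2 ^ (g.1 + 1)) (2 ^ g.2) (2 ^ (g.2 + 1))).card ≤
      (WX N (2 ^ (max g.1 g.2)) (2 ^ (max g.1 g.2 + 2))).card := by
    rintro ⟨a, b⟩ _
    simp only
    have p1 : (2 : ℤ) ^ (a + 1) ≤ 2 * 2 ^ a := by rw [pow_succ]; omega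
    have p2 : (2 : ℤ) ^ (b + 1) ≤ 2 * 2 ^ b := by rw [pow_succ]; omega
    have p3 : (2 : ℤ) ^ (max a b) ≤ 2 ^ a ∨ (2 : ℤ) ^ (max a b) ≤ 2 ^ b := by
      rcases le_total a b with h | h
      · right; rw [max_eq_right h]
      · left; rw [max_eq_left h]
    refine (card_VX_le p1 p2 (by positivity) p3).trans ?_
    apply Finset.card_le_card
    intro w hw
    rw [mem_WX] at hw ⊢
    refine ⟨hw.1, hw.2.1, lt_of_lt_of_le hw.2.2 ?_⟩
    have q1 : (2 : ℤ) ^ (a + 1) ≤ 2 ^ (max a b + 1) :=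
      pow_le_pow_right₀ (by norm_num) (by omega)
    have q2 : (2 : ℤ) ^ (b + 1) ≤ 2 ^ (max a b + 1) :=
      pow_le_pow_right₀ (by norm_num) (by omega)
    have q3 : (2 : ℤ) ^ (max a b + 2) = 2 ^ (max a b + 1) + 2 ^ (max a b + 1) := by
      rw [pow_succ]; ring
    omega
  refine (Finset.sum_le_sum h1).trans ?_
  -- double counting
  obtain ⟨T, hT⟩ : ∃ T, T = Finset.range (G + 1) ×ˢ Finset.range (G + 1) := ⟨_, rfl⟩
  rw [← hT]
  have hsub : ∀ g ∈ T, WX N (2 ^ (max g.1 g.2)) (2 ^ (max g.1 g.2 + 2)) ⊆ BrSet N (4 * W) := by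
    intro g hg w hw
    rw [hT, Finset.mem_product, Finset.mem_range, Finset.mem_range] at hg
    rw [mem_WX] at hw
    rw [mem_BrSet]
    refine ⟨hw.1, ?_⟩
    have q1 : (2 : ℤ) ^ (max g.1 g.2 + 2) ≤ 2 ^ (G + 2) :=
      pow_le_pow_right₀ (by norm_num) (by omega)
    have q2 : (2 : ℤ) ^ (G + 2) = 4 * 2 ^ G := by rw [pow_add]; norm_num; ring
    have q3 : ((2 : ℤ) ^ G) ≤ W := by exact_mod_cast hGW
    push_cast
    omega
  have h2 : ∀ g ∈ T, (WX N (2 ^ (max g.1 g.2)) (2 ^ (max g.1 g.2 + 2))).card =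
      ∑ w ∈ BrSet N (4 * W),
        if w ∈ WX N (2 ^ (max g.1 g.2)) (2 ^ (max g.1 g.2 + 2)) then 1 else 0 := by
    intro g hg
    rw [← Finset.card_filter]
    congr 1
    ext w
    rw [Finset.mem_filter]
    exact ⟨fun h => ⟨hsub g hg h, h⟩, fun h => h.2⟩
  rw [Finset.sum_congr rfl h2, Finset.sum_comm]
  have h3 : ∀ w ∈ BrSet N (4 * W), (∑ g ∈ T,
      if w ∈ WX N (2 ^ (max g.1 g.2)) (2 ^ (max g.1 g.2 + 2)) then 1 else 0) ≤
      4 * (G + 1) := by
    intro w _
    rw [← Finset.card_filter]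
    obtain ⟨l, hl⟩ : ∃ l, l = Nat.log 2 (w N).1.toNat := ⟨_, rfl⟩
    have hsub2 : T.filter (fun g => w ∈ WX N (2 ^ (max g.1 g.2)) (2 ^ (max g.1 g.2 + 2))) ⊆
        (({l - 1, l} : Finset ℕ) ×ˢ Finset.range (G + 1)) ∪
        (Finset.range (G + 1) ×ˢ ({l - 1, l} : Finset ℕ)) := by
      rintro ⟨a, b⟩ hg
      rw [Finset.mem_filter, hT, Finset.mem_product, Finset.mem_range, Finset.mem_range,
        mem_WX] at hg
      obtain ⟨⟨g1, g2⟩, -, g3, g4⟩ := hg
      simp only at g1 g2 g3 g4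
      have k1 : 2 ^ (max a b) ≤ (w N).1.toNat := by
        zify
        rw [Int.toNat_of_nonneg (by
          have : (0 : ℤ) < 2 ^ (max a b) := by positivity
          omega)]
        exact g3
      have k2 : (w N).1.toNat < 2 ^ (max a b + 2) := by
        zify
        rw [Int.toNat_of_nonneg (by
          have : (0 : ℤ) < 2 ^ (max a b) := by positivity
          omega)]
        exact g4
      have k3 : max a b ≤ l := by
        rw [hl]
        exact Nat.le_log_of_pow_le (by norm_num) k1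
      have k4 : l < max a b + 2 := by
        rw [hl]
        refine Nat.log_lt_of_lt_pow ?_ k2
        have : 0 < 2 ^ (max a b) := by positivity
        omega
      rw [Finset.mem_union, Finset.mem_product, Finset.mem_product]
      simp only [Finset.mem_insert, Finset.mem_singleton, Finset.mem_range]
      rcases le_total a b with h | h
      · right
        rw [max_eq_right h] at k3 k4
        exact ⟨g1, by omega⟩
      · left
        rw [max_eq_left h] at k3 k4
        exact ⟨by omega, g2⟩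
    refine (Finset.card_le_card hsub2).trans ((Finset.card_union_le _ _).trans ?_)
    rw [Finset.card_product, Finset.card_product, Finset.card_range]
    have : ({l - 1, l} : Finset ℕ).card ≤ 2 := Finset.card_le_two
    nlinarith
  calc _ ≤ ∑ _w ∈ BrSet N (4 * W), 4 * (G + 1) := Finset.sum_le_sum h3
    _ = _ := by rw [Finset.sum_const, smul_eq_mul, mul_comm]

lemma PU_le {o : ℤ} (ho : o = 1 ∨ o = -1) (N W : ℕ) (hW : 1 ≤ W) :
    ∑' p : LL, ind (PU o W p ∧ (p.1 ++ p.2).length = N) * 1 ≤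
    ((4 * (Nat.log 2 W + 1) * (BrSet N (4 * W)).card : ℕ) : ℝ≥0∞) := by
  classical
  have h1 : ∑' w : Wk, ind (w ∈ VA N (Nat.log 2 W)) * 1 = ((VA N (Nat.log 2 W)).card : ℝ≥0∞) := by
    rw [tsum_eq_sum (s := VA N (Nat.log 2 W))]
    · rw [Finset.sum_congr rfl (g := fun _ => (1 : ℝ≥0∞))]
      · simp
      · intro w hw
        rw [ind_of hw, mul_one]
    · intro w hw
      rw [ind_not hw, zero_mul]
  have h2 : ((VA N (Nat.log 2 W)).card : ℝ≥0∞) ≤
      ((4 * (Nat.log 2 W + 1) * (BrSet N (4 * W)).card : ℕ) : ℝ≥0∞) := by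
    exact_mod_cast card_VA_le N W hW
  refine le_trans ?_ h2
  rw [← h1]
  refine tsum_inj _ _ _ _ (fun p : LL => pf o (p.1 ++ sg p.2)) ?_ ?_ ?_
  · rintro p q ⟨hp, hpN⟩ ⟨hq, hqN⟩ heq
    obtain ⟨a1, a2, -⟩ := ov_of ho hp
    obtain ⟨b1, b2, -⟩ := ov_of ho hq
    rw [hpN] at a1
    rw [hqN] at b1
    have h3 : p.1.length = q.1.length := by rw [← a1, ← b1, heq]
    have h4 : pf o (p.1 ++ p.2) = pf o (q.1 ++ q.2) := by rw [← a2, ← b2, heq, h3]
    have ok : ∀ r : LL, PU o W r → Ok (r.1 ++ r.2) := fun r hr =>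
      ok_append.mpr ⟨hr.1.1.1.br.saw.2, hr.1.2.1.1.br.saw.2⟩
    have h5 : p.1 ++ p.2 = q.1 ++ q.2 := pf_inj ho (ok p hp) (ok q hq) (hpN.trans hqN.symm) h4
    obtain ⟨h6, h7⟩ := List.append_inj h5 h3
    exact Prod.ext h6 h7
  · rintro p ⟨hp, hpN⟩
    obtain ⟨-, -, a3⟩ := ov_of ho hp
    rw [hpN] at a3
    unfold VA
    rw [Finset.mem_biUnion]
    have p1 : 0 < wd p.1 := hp.1.1.1.wd_pos hp.2.1
    have p2 : 0 < wd p.2 := hp.1.2.1.1.wd_pos hp.2.2.1
    refine ⟨(Nat.log 2 (wd p.1), Nat.log 2 (wd p.2)), ?_, ?_⟩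
    · rw [Finset.mem_product, Finset.mem_range, Finset.mem_range]
      have e1 : Nat.log 2 (wd p.1) ≤ Nat.log 2 W := Nat.log_mono_right hp.1.1.2
      have e2 : Nat.log 2 (wd p.2) ≤ Nat.log 2 W := Nat.log_mono_right hp.1.2.1.2
      exact ⟨Nat.lt_succ_of_le e1, Nat.lt_succ_of_le e2⟩
    · rw [mem_VX]
      apply a3
      · exact_mod_cast Nat.pow_log_le_self 2 (by omega)
      · exact_mod_cast Nat.lt_pow_succ_log_self (by norm_num) _
      · exact_mod_cast Nat.pow_log_le_self 2 (by omega)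
      · exact_mod_cast Nat.lt_pow_succ_log_self (by norm_num) _
  · intro p _
    exact le_rfl

/-- pairs in the chain -/
def PEc (r W : ℕ) (p : LL) : Prop :=
  (IsB p.1 ∧ wd p.1 ≤ r) ∧ ((IsB p.2 ∧ wd p.2 ≤ W) ∧ CC r p.1 p.2)

lemma coeff_Ec (r W n : ℕ) : coeff n (Ec r W) =
    ∑' p : LL, ind (PEc r W p ∧ (p.1 ++ p.2).length = n) * 1 := by
  have h1 : Ec r W = fs (fun p : LL => ii (PEc r W p) * xl (p.1 ++ p.2)) := by
    unfold Ec Nc PEc
    rw [fs_prod]
    apply fs_congr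
    intro X
    rw [mul_fs, mul_fs]
    apply fs_congr
    intro Y
    simp only [xl_append]
    rw [ii_and (IsB X ∧ wd X ≤ r)]; ring
  rw [h1, coeff_fs]
  congr 1; ext p
  rw [coeff_ii_mul, coeff_xl, ind_and (PEc r W p), mul_one]

theorem coeff_Ec_le (N r W : ℕ) (hr : 1 ≤ r) (hrW : r ≤ W) : coeff N (Ec r W) ≤
    ((2 + 16 * (Nat.log 2 W + 1) : ℕ) : ℝ≥0∞) * coeff N (Us (8 * W)) := by
  rw [coeff_Ec]
  have hm : ∀ V, V ≤ 8 * W → coeff N (Us V) ≤ coeff N (Us (8 * W)) := fun V hV => Us_mono hV N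
  have h1 : ∑' p : LL, ind ((p.1 = [] ∧ IsB p.2 ∧ wd p.2 ≤ W) ∧ (p.1 ++ p.2).length = N) * 1 ≤
      coeff N (Us W) := by
    rw [coeff_Us]
    refine tsum_inj _ _ _ _ (fun p : LL => p.2) ?_ ?_ ?_
    · rintro ⟨X, Y⟩ ⟨X', Y'⟩ ⟨⟨a1, a2, a3⟩, a4⟩ ⟨⟨b1, b2, b3⟩, b4⟩ h
      simp only at a1 b1 h
      rw [a1, b1, h]
    · rintro ⟨X, Y⟩ ⟨⟨a1, a2, a3⟩, a4⟩
      simp only at a1 a2 a3 a4 ⊢
      rw [a1] at a4
      exact ⟨⟨a2, a3⟩, by simpa using a4⟩
    · intro p _
      exact le_rfl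
  have h2 : ∑' p : LL, ind ((p.2 = [] ∧ IsB p.1 ∧ wd p.1 ≤ r) ∧ (p.1 ++ p.2).length = N) * 1 ≤
      coeff N (Us r) := by
    rw [coeff_Us]
    refine tsum_inj _ _ _ _ (fun p : LL => p.1) ?_ ?_ ?_
    · rintro ⟨X, Y⟩ ⟨X', Y'⟩ ⟨⟨a1, a2, a3⟩, a4⟩ ⟨⟨b1, b2, b3⟩, b4⟩ h
      simp only at a1 b1 h
      rw [a1, b1, h]
    · rintro ⟨X, Y⟩ ⟨⟨a1, a2, a3⟩, a4⟩
      simp only at a1 a2 a3 a4 ⊢
      rw [a1] at a4
      exact ⟨⟨a2, a3⟩, by simpa using a4⟩
    · intro p _
      exact le_rfl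
  have h3 := PU_le (o := 1) (Or.inl rfl) N W (by omega)
  have h3' := PU_le (o := -1) (Or.inr rfl) N W (by omega)
  have h4 := card_BrSet_le N (4 * W)
  calc ∑' p : LL, ind (PEc r W p ∧ (p.1 ++ p.2).length = N) * 1
      ≤ ∑' p : LL, ((ind ((p.1 = [] ∧ IsB p.2 ∧ wd p.2 ≤ W) ∧ (p.1 ++ p.2).length = N) * 1 +
        ind ((p.2 = [] ∧ IsB p.1 ∧ wd p.1 ≤ r) ∧ (p.1 ++ p.2).length = N) * 1) +
        (ind (PU 1 W p ∧ (p.1 ++ p.2).length = N) * 1 +
        ind (PU (-1) W p ∧ (p.1 ++ p.2).length = N) * 1)) := by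
        apply ENNReal.tsum_le_tsum
        intro p
        by_cases hp : PEc r W p ∧ (p.1 ++ p.2).length = N
        · rw [ind_of hp, one_mul]
          obtain ⟨⟨⟨a1, a2⟩, ⟨a3, a4⟩, a5⟩, a6⟩ := hp
          by_cases hX : p.1 = []
          · rw [ind_of (p := (p.1 = [] ∧ IsB p.2 ∧ wd p.2 ≤ W) ∧ (p.1 ++ p.2).length = N)
              ⟨⟨hX, a3, a4⟩, a6⟩, one_mul, add_assoc]
            exact le_self_add
          · by_cases hY : p.2 = []
            · rw [ind_of (p := (p.2 = [] ∧ IsB p.1 ∧ wd p.1 ≤ r) ∧ (p.1 ++ p.2).length = N)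
                ⟨⟨hY, a1, a2⟩, a6⟩, one_mul]
              exact le_trans le_add_self le_self_add
            · obtain ⟨hEU, hED⟩ := a5 [] p.1 isB_nil a1 (by simp) a2 hX hY
              have hN : NCg p.1 p.2 := by
                obtain ⟨u, -, h, -⟩ := hEU
                exact h.suf
              obtain ⟨o, ho, h4⟩ := up_cases a1 a3 hX hY hN
              rcases ho with rfl | rfl
              · rw [ind_of (p := PU 1 W p ∧ (p.1 ++ p.2).length = N)
                  ⟨⟨⟨⟨a1, by omega⟩, ⟨a3, a4⟩, hEU, hED⟩, hX, hY, h4⟩, a6⟩, one_mul]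
                exact le_trans le_self_add le_add_self
              · rw [ind_of (p := PU (-1) W p ∧ (p.1 ++ p.2).length = N)
                  ⟨⟨⟨⟨a1, by omega⟩, ⟨a3, a4⟩, hEU, hED⟩, hX, hY, h4⟩, a6⟩, one_mul]
                exact le_trans le_add_self le_add_self
        · rw [ind_not hp, zero_mul]; exact zero_le
    _ = (∑' p : LL, ind ((p.1 = [] ∧ IsB p.2 ∧ wd p.2 ≤ W) ∧ (p.1 ++ p.2).length = N) * 1 +
        ∑' p : LL, ind ((p.2 = [] ∧ IsB p.1 ∧ wd p.1 ≤ r) ∧ (p.1 ++ p.2).length = N) * 1) +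
        (∑' p : LL, ind (PU 1 W p ∧ (p.1 ++ p.2).length = N) * 1 +
        ∑' p : LL, ind (PU (-1) W p ∧ (p.1 ++ p.2).length = N) * 1) := by
        rw [ENNReal.tsum_add, ENNReal.tsum_add, ENNReal.tsum_add]
    _ ≤ (coeff N (Us W) + coeff N (Us r)) +
        (((4 * (Nat.log 2 W + 1) * (BrSet N (4 * W)).card : ℕ) : ℝ≥0∞) +
        ((4 * (Nat.log 2 W + 1) * (BrSet N (4 * W)).card : ℕ) : ℝ≥0∞)) :=
        add_le_add (add_le_add h1 h2) (add_le_add h3 h3')
    _ ≤ (coeff N (Us (8 * W)) + coeff N (Us (8 * W))) +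
        (((4 * (Nat.log 2 W + 1) : ℕ) : ℝ≥0∞) * (2 * coeff N (Us (8 * W))) +
        ((4 * (Nat.log 2 W + 1) : ℕ) : ℝ≥0∞) * (2 * coeff N (Us (8 * W)))) := by
        have h5 : ((4 * (Nat.log 2 W + 1) * (BrSet N (4 * W)).card : ℕ) : ℝ≥0∞) ≤
            ((4 * (Nat.log 2 W + 1) : ℕ) : ℝ≥0∞) * (2 * coeff N (Us (8 * W))) := by
          rw [Nat.cast_mul]
          gcongr
          refine h4.trans ?_
          gcongr
          exact hm _ (by omega)
        exact add_le_add (add_le_add (hm _ (by omega)) (hm _ (by omega))) (add_le_add h5 h5)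
    _ = _ := by
        push_cast
        ring

end Pool.Agent.W387.S
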