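import Pool.Agent.W387.S.Plan

/-!
The T-move preserves bridges, and the matching of extendable folded walks and bridges.
-/

set_option linter.unusedSectionVars false

namespace Pool.Agent.W387.S

open H982F (Saw Adj Cut Up fl zf ct SawSet mem_SawSet FBr BrSet mem_BrSet)
open H982R (Wk rf tm rf_le rf_gt rf_rf tm_le tm_mid tm_gt tm_self)
open H500S (tp tp_le tp_max tp_last tp_eq rf_comm rf_rf_left rf_rf_right up_rf_ge up_rf_le)

variable [L : H982.Lat]

theorem tm_fbr {N : ℕ} {t s : ℕ} {w : Wk} (h : PN N w t s) : FBr N (tm w t s) := by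
  have hpl := fun hop => planarN h hop
  obtain ⟨⟨saw, bpos, ble⟩, htt, ltN, up, hup', gmx, gmn0, sw, sw', -, -, hc1, hc2⟩ := h
  have gmn : ∀ i, s < i → (w s).1 < (w i).1 := by
    intro i hi
    rcases le_or_gt i N with h1 | h1
    · exact gmn0 i hi h1
    · rw [saw.const i h1.le]
      exact gmn0 N ltN le_rfl
  have hw0 : (w 0).1 = 0 := by rw [saw.zero]
  obtain ⟨v, hv⟩ : ∃ v, v = tm w t s := ⟨_, rfl⟩
  have vle : ∀ i, i ≤ t → v i = w i := fun i hi => by rw [hv, tm_le hi]
  have vmid : ∀ i, t < i → i ≤ s → v i = (2 * (w t).1 - (w i).1, (w i).2) :=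
    fun i h1 h2 => by rw [hv, tm_mid h1 h2]
  have vgt : ∀ i, s < i → v i = ((w i).1 - 2 * ((w s).1 - (w t).1), (w i).2) :=
    fun i h1 => by rw [hv, tm_gt (by omega) h1]
  have vN : (v N).1 = (w N).1 - 2 * ((w s).1 - (w t).1) := by rw [vgt N (by omega)]
  have hc2t := hc2 t le_rfl htt.le
  have hc1t := hc1 s le_rfl
  have hmn1 := gmn (s + 1) (by omega)
  have hadj1 := saw.adj s (by omega)
  have hs1 : (w (s + 1)).1 = (w s).1 + 1 := by
    have := hadj1.abs_fst; omega
  have vsnd : ∀ i, (v i).2 = (w i).2 := by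
    intro i
    rcases le_or_gt i t with h1 | h1
    · rw [vle i h1]
    · rcases le_or_gt i s with h2 | h2
      · rw [vmid i h1 h2]
      · rw [vgt i h2]
  have hsaw : Saw N v := by
    constructor
    · rw [vle 0 (by omega)]; exact saw.zero
    · intro i hi
      have ha := saw.adj i hi
      rcases lt_trichotomy i t with h1 | h1 | h1
      · rw [vle i (by omega), vle (i + 1) (by omega)]; exact ha
      · subst h1
        rw [vle i (by omega), vmid (i + 1) (by omega) (by omega)]
        have h3 := ha.refl2 (w i).1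
        have h4 : (2 * (w i).1 - (w i).1, (w i).2) = w i := by
          ext
          · simp only; ring
          · rfl
        rw [h4] at h3
        exact h3
      · rcases lt_trichotomy i s with h2 | h2 | h2
        · rw [vmid i (by omega) (by omega), vmid (i + 1) (by omega) (by omega)]
          exact ha.refl2 _
        · subst h2
          rw [vmid i (by omega) (by omega), vgt (i + 1) (by omega)]
          have h3 := ha.shift ((w i).1 - (w t).1)
          have h4 : ((w i).1 - 2 * ((w i).1 - (w t).1), (w i).2) =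
              (2 * (w t).1 - (w i).1, (w i).2) := by
            ext
            · simp only; ring
            · rfl
          rw [h4] at h3
          exact h3
        · rw [vgt i (by omega), vgt (i + 1) (by omega)]
          exact ha.shift _
    · have main : ∀ i k, i < k → k ≤ N → v i ≠ v k := by
        intro i k hik hk heq
        rcases Nat.lt_or_ge t i with hi | hi
        · rcases Nat.lt_or_ge s i with hi' | hi'
          · rw [vgt i hi', vgt k (by omega), Prod.mk.injEq] at heq
            have : w i = w k := by ext <;> omega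
            have := saw.inj i k (by omega) hk this
            omega
          · rcases Nat.lt_or_ge s k with hk' | hk'
            · rw [vmid i hi hi', vgt k hk', Prod.mk.injEq] at heq
              have h9 : rf w s i = rf w s k := by
                rw [rf_le hi', rf_gt hk']
                ext <;> simp only <;> omega
              have := sw'.inj i k (by omega) hk h9
              omega
            · rw [vmid i hi hi', vmid k (by omega) hk', Prod.mk.injEq] at heq
              have : w i = w k := by ext <;> omega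
              have := saw.inj i k (by omega) hk this
              omega
        · rcases Nat.lt_or_ge t k with hk1 | hk1
          · rcases Nat.lt_or_ge s k with hk' | hk'
            · rw [vle i hi, vgt k hk'] at heq
              rcases lt_or_ge (w t).1 (w s).1 with hop | hop
              · exact hpl hop i k hi hk' hk heq
              · have h1 := gmx i hi
                have h2 := gmn k hk'
                have h3 := congrArg Prod.fst heq
                simp only at h3
                omega
            · rw [vle i hi, vmid k hk1 hk'] at heq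
              have h9 : rf w t i = rf w t k := by
                rw [rf_le hi, rf_gt hk1, heq]
              have := sw.inj i k (by omega) hk h9
              omega
          · rw [vle i hi, vle k hk1] at heq
            have := saw.inj i k (by omega) hk heq
            omega
      intro i k hi hk heq
      rcases lt_trichotomy i k with h | h | h
      · exact absurd heq (main i k h hk)
      · exact h
      · exact absurd heq.symm (main k i h hi)
    · intro i hi
      rw [vgt i (by omega), vgt N (by omega), saw.const i hi]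
    · exact saw.al.congr (fun i _ => vsnd i)
  rw [← hv]
  refine ⟨hsaw, ?_, ?_⟩
  · intro i hi1 hi2
    rcases le_or_gt i t with h1 | h1
    · rw [vle i h1]; exact bpos i hi1 hi2
    · rcases le_or_gt i s with h2 | h2
      · rw [vmid i h1 h2]
        have := hc1 i h2
        simp only
        omega
      · rw [vgt i h2]
        have := gmn i h2
        simp only
        omega
  · intro i hi
    rw [vN]
    rcases le_or_gt i t with h1 | h1
    · rw [vle i h1]
      have := gmx i h1
      omega
    · rcases le_or_gt i s with h2 | h2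
      · rw [vmid i h1 h2]
        have := hc2 i h1.le h2
        simp only
        omega
      · rw [vgt i h2]
        have := ble i hi
        simp only
        omega

/-- Extendable folded walks in a window. -/
structure OV (N : ℕ) (α Lm β Lb : ℤ) (v : Wk) : Prop where
  saw : Saw N v
  br : FBr N (rf v (tp N v))
  lt : tp N v < N
  up : Up v (tp N v)
  a1 : α ≤ (v (tp N v)).1
  a2 : (v (tp N v)).1 < Lm
  b1 : β ≤ (v (tp N v)).1 - (v N).1
  b2 : (v (tp N v)).1 - (v N).1 < Lb
  ed : ExD N v
  eu : ExU N v

open scoped Classical in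
noncomputable def VX (N : ℕ) (α Lm β Lb : ℤ) : Finset Wk :=
  (SawSet N).filter (fun z => OV N α Lm β Lb z)

open scoped Classical in
/-- bridges with width in a window -/
noncomputable def WX (N : ℕ) (D0 D : ℤ) : Finset Wk :=
  (SawSet N).filter (fun z => FBr N z ∧ D0 ≤ (z N).1 ∧ (z N).1 < D)

theorem mem_VX {N : ℕ} {α Lm β Lb : ℤ} {z : Wk} : z ∈ VX N α Lm β Lb ↔ OV N α Lm β Lb z := by
  classical
  unfold VX
  rw [Finset.mem_filter]
  exact ⟨fun h => h.2, fun h => ⟨mem_SawSet.2 h.saw, h⟩⟩

theorem mem_WX {N : ℕ} {D0 D : ℤ} {z : Wk} :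
    z ∈ WX N D0 D ↔ FBr N z ∧ D0 ≤ (z N).1 ∧ (z N).1 < D := by
  classical
  unfold WX
  rw [Finset.mem_filter]
  exact ⟨fun h => h.2, fun h => ⟨mem_SawSet.2 h.1.saw, h⟩⟩

theorem card_VX_le {N : ℕ} {α Lm β Lb D0 : ℤ} (hα : Lm ≤ 2 * α) (hβ : Lb ≤ 2 * β)
    (hα0 : 0 < α) (h0 : D0 ≤ α ∨ D0 ≤ β) :
    (VX N α Lm β Lb).card ≤ (WX N D0 (Lm + Lb)).card := by
  classical
  obtain ⟨V, hV⟩ : ∃ V, V = VX N α Lm β Lb := ⟨_, rfl⟩
  obtain ⟨W, hW⟩ : ∃ W, W = WX N D0 (Lm + Lb) := ⟨_, rfl⟩
  have memV : ∀ z, z ∈ V ↔ OV N α Lm β Lb z := by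
    intro z; rw [hV]; exact mem_VX
  have memW : ∀ z, z ∈ W ↔ FBr N z ∧ D0 ≤ (z N).1 ∧ (z N).1 < Lm + Lb := by
    intro z; rw [hW]; exact mem_WX
  rw [← hV, ← hW]
  have hVW : ∀ z, z ∈ V → z ∈ W → False := by
    intro z h1 h2
    rw [memV] at h1
    rw [memW] at h2
    have h3 := tp_last (N := N) (w := z) N h1.lt le_rfl
    have h4 := h2.1.le _ (tp_le N z)
    omega
  -- the unfolded walk of an element of `V`
  have hVun : ∀ z, z ∈ V → rf z (tp N z) ∈ W := by
    intro z hz
    have h := (memV z).1 hz
    rw [memW]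
    have e : (rf z (tp N z) N).1 = 2 * (z (tp N z)).1 - (z N).1 := by rw [rf_gt h.lt]
    have := h.a1
    have := h.a2
    have := h.b1
    have := h.b2
    refine ⟨h.br, ?_, ?_⟩
    · rw [e]; rcases h0 with h0 | h0 <;> omega
    · rw [e]; omega
  refine Pool.Agent.H725R3.match_card V W (fun t z => rf z t)
    (fun z t => t < N ∧ Up z t ∧ (∀ i, i ≤ t → (z i).1 ≤ (z t).1) ∧ α ≤ (z t).1 ∧
      ((z ∈ V ∧ rf z t ∈ W) ∨ (z ∈ W ∧ rf z t ∈ V)))
    (fun z s => s < N ∧ Up z s ∧
      ((z ∈ V ∧ rf z s ∈ W ∧ (∀ i, s < i → i ≤ N → (z i).1 < (z s).1) ∧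
          β ≤ (z s).1 - (z N).1) ∨
       (z ∈ W ∧ rf z s ∈ V ∧ (∀ i, s < i → i ≤ N → (z s).1 < (z i).1) ∧
          β ≤ (z N).1 - (z s).1)))
    (fun z => tp N z) ?_ ?_ ?_ ?_ ?_ ?_ ?_ ?_ ?_
  · intro z t
    simp only [rf_rf]
  · intro z s t
    rw [rf_comm]
  · -- hFV
    rintro z hz t ⟨f3, f4, f5, f6, f7⟩
    have h5 : rf z t ∈ W := by
      rcases f7 with h | h
      · exact h.2
      · exact (hVW z hz h.1).elim
    refine ⟨h5, f3, up_rf_ge le_rfl f4, ?_, ?_, Or.inr ⟨h5, ?_⟩⟩
    · intro i hi
      rw [rf_le hi, rf_le le_rfl]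
      exact f5 i hi
    · rw [rf_le le_rfl]
      exact f6
    · simp only [rf_rf]
      exact hz
  · -- hGV
    rintro z hz s ⟨g3, g4, g5⟩
    have h5 : rf z s ∈ W ∧ (∀ i, s < i → i ≤ N → (z i).1 < (z s).1) ∧
        β ≤ (z s).1 - (z N).1 := by
      rcases g5 with h | h
      · exact h.2
      · exact (hVW z hz h.1).elim
    refine ⟨h5.1, g3, up_rf_ge le_rfl g4, Or.inr ⟨h5.1, ?_, ?_, ?_⟩⟩
    · simp only [rf_rf]
      exact hz
    · intro i h6 h7
      rw [rf_le le_rfl, rf_gt h6]
      have := h5.2.1 i h6 h7
      simp only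
      omega
    · rw [rf_le le_rfl, rf_gt g3]
      have := h5.2.2
      simp only
      omega
  · -- hGW
    rintro z hz s ⟨g3, g4, g5⟩
    have h5 : rf z s ∈ V ∧ (∀ i, s < i → i ≤ N → (z s).1 < (z i).1) ∧
        β ≤ (z N).1 - (z s).1 := by
      rcases g5 with h | h
      · exact (hVW z h.1 hz).elim
      · exact h.2
    refine ⟨h5.1, g3, up_rf_ge le_rfl g4, Or.inl ⟨h5.1, ?_, ?_, ?_⟩⟩
    · simp only [rf_rf]
      exact hz
    · intro i h6 h7
      rw [rf_le le_rfl, rf_gt h6]
      have := h5.2.1 i h6 h7
      simp only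
      omega
    · rw [rf_le le_rfl, rf_gt g3]
      have := h5.2.2
      simp only
      omega
  · -- htopF
    intro z hz
    have h := (memV z).1 hz
    exact ⟨h.lt, h.up, fun i hi => tp_max i (hi.trans (tp_le N _)), h.a1,
      Or.inl ⟨hz, hVun z hz⟩⟩
  · -- htopG
    intro z hz
    have h := (memV z).1 hz
    exact ⟨h.lt, h.up, Or.inl ⟨hz, hVun z hz, tp_last, h.b1⟩⟩
  · -- htop
    rintro z hz t ⟨f3, f4, f5, f6, f7⟩
    by_contra hcon
    push Not at hcon
    have h3 := tp_last (N := N) (w := z) t hcon f3.le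
    have h4 := f5 _ hcon.le
    omega
  · -- closure
    rintro w hw t s hts ⟨f3, f4, f5, f6, f7⟩ ⟨g3, g4, g5⟩
    have hRt : rf w t ∈ V := by
      rcases f7 with h | h
      · exact (hVW _ h.1 hw).elim
      · exact h.2
    have hRs : rf w s ∈ V ∧ (∀ i, s < i → i ≤ N → (w s).1 < (w i).1) ∧
        β ≤ (w N).1 - (w s).1 := by
      rcases g5 with h | h
      · exact (hVW _ h.1 hw).elim
      · exact h.2
    obtain ⟨hRs1, hRs2, hRs3⟩ := hRs
    have vt := (memV _).1 hRt
    have vs := (memV _).1 hRs1
    have wm := (memW _).1 hw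
    have hmem : tm w t s ∈ W := by
      rcases Nat.eq_or_lt_of_le hts with hlt | hlt
      · subst hlt
        rw [tm_self]
        exact hw
      have et : ∀ i, t < i → (rf w t i).1 = 2 * (w t).1 - (w i).1 := fun i hi => by rw [rf_gt hi]
      have et' : ∀ i, i ≤ t → (rf w t i).1 = (w i).1 := fun i hi => by rw [rf_le hi]
      have es : ∀ i, s < i → (rf w s i).1 = 2 * (w s).1 - (w i).1 := fun i hi => by rw [rf_gt hi]
      have es' : ∀ i, i ≤ s → (rf w s i).1 = (w i).1 := fun i hi => by rw [rf_le hi]
      have htN : (rf w t N).1 = 2 * (w t).1 - (w N).1 := et N f3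
      have hsN : (rf w s N).1 = 2 * (w s).1 - (w N).1 := es N g3
      -- c1
      have c1 : ∀ i, i ≤ s → (w i).1 < 2 * (w t).1 := by
        intro i hi
        have h1 := vs.a2
        have h2 := tp_max (N := N) (w := rf w s) i (by omega)
        rw [es' i hi] at h2
        omega
      have c2 : ∀ i, t ≤ i → i ≤ s → 2 * (w s).1 - (w N).1 ≤ (w i).1 := by
        intro i hi1 hi2
        have h1 := vt.b2
        have h2 := tp_max (N := N) (w := rf w t) i (by omega)
        have h3 : (rf w t i).1 = 2 * (w t).1 - (w i).1 := by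
          rcases Nat.eq_or_lt_of_le hi1 with h4 | h4
          · rw [← h4, et' t le_rfl]; ring
          · exact et i h4
        rw [h3] at h2
        rw [htN] at h1
        omega
      have hPN : PN N w t s :=
        ⟨wm.1, hlt, g3, f4, g4, f5, hRs2, vt.saw, vs.saw, vt.ed, vs.eu, c1, c2⟩
      have e : (tm w t s N).1 = (w N).1 - 2 * ((w s).1 - (w t).1) := by
        rw [tm_gt (by omega) g3]
      rw [memW]
      refine ⟨tm_fbr hPN, ?_, ?_⟩
      · rw [e]
        have h1 := c1 s le_rfl
        have h2 := c2 t le_rfl hts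
        rcases h0 with h3 | h3 <;> omega
      · rw [e]
        have h1 := vs.a2
        have h2 := vs.b2
        have h3 := tp_max (N := N) (w := rf w s) t (by omega)
        rw [es' t hts] at h3
        rw [hsN] at h2
        omega
    refine ⟨⟨g3, up_rf_le hts g4, Or.inl ⟨hRt, ?_, ?_, ?_⟩⟩,
      f3, up_rf_ge hts f4, ?_, ?_, Or.inl ⟨hRs1, ?_⟩⟩
    · rw [rf_rf_right hts]
      exact hmem
    · intro i h1 h2
      have h3 := hRs2 i h1 h2
      rw [rf_gt (show t < i by omega)]
      rcases Nat.eq_or_lt_of_le hts with h4 | h4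
      · subst h4
        rw [rf_le le_rfl]
        simp only
        omega
      · rw [rf_gt h4]
        simp only
        omega
    · rcases Nat.eq_or_lt_of_le hts with h4 | h4
      · subst h4
        rw [rf_le le_rfl, rf_gt g3]
        simp only
        omega
      · rw [rf_gt h4, rf_gt (show t < N by omega)]
        simp only
        omega
    · intro i hi
      rw [rf_le (show i ≤ s by omega), rf_le hts]
      exact f5 i hi
    · rw [rf_le hts]
      exact f6
    · rw [rf_rf_left hts]
      exact hmem

end Pool.Agent.W387.S
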