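import Pool.Agent.H500R3.Saw.Mat

/-!
Planarity for pairs of pivots of extendable folded walks, for the square, triangular and honeycomb
lattices.  Compared with `H500S.planarG` there are no windows around the two pivots: the walk
reflected at the first pivot is continued downwards to the level of its starting point, and the
walk reflected at the second pivot is continued backwards to its lowest level.
-/

set_option linter.unusedSectionVars false

namespace Pool.Agent.W387.S

open H982F
open H982R (Wk rf tm rf_le rf_gt rf_rf tm_le tm_mid tm_gt tm_self)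
open H500S (tp tp_le tp_max tp_last tp_eq rf_comm rf_rf_left rf_rf_right up_rf_ge up_rf_le)

variable [L : H982.Lat]

/-- the walk `v` of length `N` can be continued after its end, strictly below its end level, down
to a level which is at most the level of its starting point -/
def ExD (N : ℕ) (v : Wk) : Prop :=
  ∃ (M : ℕ) (δ : ℕ → ℤ × ℤ), δ 0 = v N ∧ (∀ l, l < M → Adj (δ l) (δ (l + 1))) ∧
    (∀ l, Par (δ l)) ∧ (∀ l, 1 ≤ l → l ≤ M → (δ l).1 < (v N).1) ∧
    (∀ l, 1 ≤ l → l ≤ M → ∀ i, i ≤ N → v i ≠ δ l) ∧ (δ M).1 ≤ 0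

/-- the walk `v` of length `N` can be continued backwards before its start, at levels at most `0`,
down to a level which is at most the lowest level of `v` -/
def ExU (N : ℕ) (v : Wk) : Prop :=
  ∃ (M : ℕ) (υ : ℕ → ℤ × ℤ), υ 0 = v 0 ∧ (∀ l, l < M → Adj (υ (l + 1)) (υ l)) ∧
    (∀ l, Par (υ l)) ∧ (∀ l, l ≤ M → (υ l).1 ≤ 0) ∧
    (∀ l, 1 ≤ l → l ≤ M → ∀ i, i ≤ N → v i ≠ υ l) ∧ (∀ i, i ≤ N → (υ M).1 ≤ (v i).1)

/-- The conditions on a bridge `w` and two times `t < s` under which the T-move is allowed. -/
structure PN (N : ℕ) (w : Wk) (t s : ℕ) : Prop where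
  br : FBr N w
  lt : t < s
  ltN : s < N
  up : Up w t
  up' : Up w s
  mx : ∀ i, i ≤ t → (w i).1 ≤ (w t).1
  mn : ∀ i, s < i → i ≤ N → (w s).1 < (w i).1
  sw : Saw N (rf w t)
  sw' : Saw N (rf w s)
  ed : ExD N (rf w t)
  eu : ExU N (rf w s)
  c1 : ∀ i, i ≤ s → (w i).1 < 2 * (w t).1
  c2 : ∀ i, t ≤ i → i ≤ s → 2 * (w s).1 - (w N).1 ≤ (w i).1

theorem planarN {N : ℕ} {t s : ℕ} {w : Wk} (h : PN N w t s)
    (hop : (w t).1 < (w s).1) :
    ∀ i k, i ≤ t → s < k → k ≤ N → w i ≠ ((w k).1 - 2 * ((w s).1 - (w t).1), (w k).2) := by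
  intro i k hi hk hkN heq
  have hw : Saw N w := h.br.saw
  have hpos := h.br.pos
  have hle := h.br.le
  have oj := h.up
  have mx := h.mx
  have sw1 := h.sw
  have oj' := h.up'
  have mn0 := h.mn
  have sw2 := h.sw'
  have htN : s < N := h.ltN
  have htt : t < s := h.lt
  have mn : ∀ i, s < i → (w s).1 < (w i).1 := by
    intro i hi
    rcases le_or_gt i N with h1 | h1
    · exact mn0 i hi h1
    · rw [hw.const i h1.le]
      exact mn0 N htN le_rfl
  have hx0 : (w 0).1 = 0 := by rw [hw.zero]
  have hc1 := h.c1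
  have hc1' := h.c1 s le_rfl
  have hc2 := h.c2 t le_rfl htt.le
  have hj0 := mx 0 (by omega)
  obtain ⟨Md, δ, d0, dadj, dpar, dlt, dav, dend⟩ := h.ed
  obtain ⟨Mu, υ, u0, uadj, upar, ule, uav, uend⟩ := h.eu
  -- coordinates
  obtain ⟨j, hj⟩ : ∃ j, (w t).1 = j := ⟨_, rfl⟩
  obtain ⟨j', hj'⟩ : ∃ j', (w s).1 = j' := ⟨_, rfl⟩
  have rt_le : ∀ i, i ≤ t → rf w t i = w i := fun i hi => rf_le hi
  have rt_gt : ∀ i, t < i → rf w t i = (2 * j - (w i).1, (w i).2) := fun i hi => by
    rw [rf_gt hi, hj]
  have rs_le : ∀ i, i ≤ s → rf w s i = w i := fun i hi => rf_le hi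
  have rs_gt : ∀ i, s < i → rf w s i = (2 * j' - (w i).1, (w i).2) := fun i hi => by
    rw [rf_gt hi, hj']
  rw [hj, hj'] at heq
  rw [hj] at hop hj0 hc1' hc2
  rw [hj'] at hop hc1' hc2
  simp only [hj] at mx
  simp only [hj'] at mn
  simp only [hj] at hc1
  have h1pos : (w 1).1 = 1 := by
    have e1 := (hw.adj 0 (by omega)).abs_fst
    have e2 := hpos 1 le_rfl (by omega)
    rw [hx0] at e1
    simp only [zero_add] at e1
    omega
  -- the reflected walk
  obtain ⟨γ, hγ⟩ : ∃ γ : ℕ → ℤ × ℤ, ∀ i, γ i = (2 * j - (w i).1, (w i).2) := ⟨_, fun _ => rfl⟩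
  obtain ⟨V, hV⟩ : ∃ V : ℕ → ℤ × ℤ, ∀ i, V i = ((w i).1 - 2 * (j' - j), (w i).2) :=
    ⟨_, fun _ => rfl⟩
  have hγadj : ∀ i, i < N → Adj (γ i) (γ (i + 1)) := by
    intro i hi
    rw [hγ, hγ]
    exact (hw.adj i hi).refl2 j
  have hVadj : ∀ i, i < N → Adj (V i) (V (i + 1)) := by
    intro i hi
    rw [hV, hV]
    exact (hw.adj i hi).shift (j' - j)
  have hγpar : ∀ i, Par (γ i) := by
    intro i
    rw [hγ]
    exact (hw.par i).refl2 j
  have hVpar : ∀ i, Par (V i) := by
    intro i
    rw [hV]
    exact (hw.par i).shift (j' - j)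
  have hxe : (w i).1 = (w k).1 - 2 * (j' - j) := congrArg Prod.fst heq
  have hye : (w i).2 = (w k).2 := by
    have h0 := congrArg Prod.snd heq
    simpa using h0
  have hxk := mn k hk
  have hxi := mx i hi
  have hmnN := mn N (by omega)
  -- the case i = t
  rcases Nat.lt_or_ge i t with hit | hit
  swap
  · have hit : i = t := le_antisymm hi hit
    subst hit
    have h1 : rf w s i = rf w s k := by
      rw [rs_le i (by omega), rs_gt k hk]
      ext
      · simp only; omega
      · simp only; exact hye
    have := sw2.inj i k (by omega) hkN h1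
    omega
  have hi1 : 1 ≤ i := by
    rcases Nat.eq_zero_or_pos i with h1 | h1
    · exfalso
      rw [h1, hx0] at hxe
      omega
    · exact h1
  have ht1' : t - 1 + 1 = t := by have := oj.1; omega
  have ht2' : s - 1 + 1 = s := by have := oj'.1; omega
  -- the point before `w t`
  obtain ⟨P, hP⟩ : ∃ P, w (t - 1) = P := ⟨_, rfl⟩
  have hPadj : Adj P (w t) := by
    have := hw.adj (t - 1) (by omega)
    rw [ht1', hP] at this
    exact this
  have hPup : P.2 < (w t).2 := by rw [← hP]; exact oj.2.1
  have hPcol : 1 ≤ P.1 ∧ P.1 ≤ j := by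
    rw [← hP]
    exact ⟨hpos (t - 1) (by omega) (by omega), mx (t - 1) (by omega)⟩
  have hPpar : L.kind = .tri → (P.1 + P.2) % 2 = 0 := by
    rw [← hP]; exact hw.par (t - 1)
  have hPav : ∀ l, t ≤ l → l ≤ N → w l ≠ (P.1, P.2) := by
    intro l h3 h4 h5
    have h6 : w l = w (t - 1) := by rw [hP]; exact h5
    have := hw.inj l (t - 1) h4 (by omega) h6
    omega
  -- the parity of `w` at `P` vanishes
  have hUP : U w t N P.1 P.2 = 0 := by
    have h6 := U_const w w t N 1 (t - 1) 1 j (by omega) (by omega)
      (fun l _ h2 => hw.adj l h2) (fun l _ h2 => hw.adj l (by omega))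
      (fun l _ _ => hw.par l) (fun l _ _ => hw.par l)
      (fun l h1 h2 => ⟨hpos l h1 (by omega), mx l (by omega)⟩)
      (by
        intro l h1 h2 n h3 h4 h5
        have := hw.inj n l h4 (by omega) h5
        omega)
      (by omega) (by right; omega)
    rw [hP] at h6
    rw [← h6]
    apply U_eq_zero
    intro l h7 h8
    right
    have := hpos l (by omega) (by omega)
    have := hpos (l + 1) (by omega) (by omega)
    omega
  -- claim 1
  have hgav : ∀ l, i ≤ l → l ≤ t - 1 → ∀ n, t ≤ n → n ≤ N → γ n ≠ w l := by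
    intro l h1 h2 n h3 h4 h5
    rcases Nat.eq_or_lt_of_le h3 with h6 | h6
    · subst h6
      have : w t = w l := by
        rw [← h5, hγ]
        ext <;> simp [hj]; omega
      have := hw.inj t l (by omega) (by omega) this
      omega
    · have h7 : rf w t l = rf w t n := by
        rw [rt_gt n h6, rt_le l (by omega), ← hγ, h5]
      have := sw1.inj l n (by omega) h4 h7
      omega
  have hγN : rf w t N = γ N := by rw [rt_gt N (by omega), hγ]
  obtain ⟨Γ, hΓ⟩ : ∃ Γ : ℕ → ℤ × ℤ, ∀ n, Γ n = if n ≤ N then γ n else δ (n - N) :=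
    ⟨_, fun _ => rfl⟩
  have Γle : ∀ n, n ≤ N → Γ n = γ n := fun n hn => by rw [hΓ, if_pos hn]
  have Γge : ∀ n, N ≤ n → Γ n = δ (n - N) := by
    intro n hn
    rcases Nat.eq_or_lt_of_le hn with h1 | h1
    · rw [← h1, Γle N le_rfl, Nat.sub_self, d0, hγN]
    · rw [hΓ, if_neg (by omega)]
  have hΓadj : ∀ n, n < N + Md → Adj (Γ n) (Γ (n + 1)) := by
    intro n hn
    rcases Nat.lt_or_ge n N with h1 | h1
    · rw [Γle n h1.le, Γle (n + 1) h1]
      exact hγadj n h1
    · rw [Γge n h1, Γge (n + 1) (by omega), show n + 1 - N = (n - N) + 1 by omega]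
      exact dadj _ (by omega)
  have hΓpar : ∀ n, Par (Γ n) := by
    intro n
    rcases Nat.lt_or_ge n N with h1 | h1
    · rw [Γle n h1.le]; exact hγpar n
    · rw [Γge n h1]; exact dpar _
  have hΓav : ∀ l, i ≤ l → l ≤ t - 1 → ∀ n, t ≤ n → n ≤ N + Md → Γ n ≠ w l := by
    intro l h1 h2 n h3 h4
    rcases Nat.lt_or_ge N n with h5 | h5
    · rw [Γge n h5.le]
      have h6 := dav (n - N) (by omega) (by omega) l (by omega)
      rw [rt_le l (by omega)] at h6
      exact fun h7 => h6 h7.symm
    · rw [Γle n h5]
      exact hgav l h1 h2 n h3 h5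
  have Γlow : ∀ n, N ≤ n → n ≤ N + Md → (Γ n).1 ≤ 2 * j - (w N).1 := by
    intro n h1 h2
    rw [Γge n h1]
    rcases Nat.eq_or_lt_of_le h1 with h3 | h3
    · rw [← h3, Nat.sub_self, d0, hγN, hγ]
    · have := dlt (n - N) (by omega) (by omega)
      rw [hγN, hγ] at this
      simp only at this
      omega
  have hΓU : ∀ x y, 2 * j - (w N).1 < x → U Γ t (N + Md) x y = U γ t N x y := by
    intro x y hx
    rw [U_split Γ (a := t) (b := N) (c := N + Md) (by omega) (by omega)]
    have e1 : U Γ t N x y = U γ t N x y := by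
      unfold U
      refine Finset.sum_congr rfl (fun n hn => ?_)
      rw [Finset.mem_Ico] at hn
      rw [Γle n (by omega), Γle (n + 1) (by omega)]
    have e2 : U Γ N (N + Md) x y = 0 := by
      apply U_eq_zero
      intro n h1 h2
      left
      have := Γlow n h1 (by omega)
      have := Γlow (n + 1) (by omega) (by omega)
      omega
    rw [e1, e2, add_zero]
  have c1 : U γ t N (w i).1 (w i).2 = 1 := by
    have h1 := U_const Γ w t (N + Md) i (t - 1) 1 j (by omega) (by omega)
      (fun l _ h2 => hΓadj l h2) (fun l _ h2 => hw.adj l (by omega))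
      (fun l _ _ => hΓpar l) (fun l _ _ => hw.par l)
      (fun l h1 h2 => ⟨hpos l (by omega) (by omega), mx l (by omega)⟩) hΓav
      (by rw [Γle t (by omega), hγ]; simp only; omega)
      (by
        rw [Γge (N + Md) (by omega), show N + Md - N = Md by omega]
        left; omega)
    rw [hΓU _ _ (by omega)] at h1
    rw [h1, hP, hΓU P.1 P.2 (by
      rcases hPadj.cases_up hPup with ⟨g1, -⟩ | ⟨-, -, g3⟩ <;> omega)]
    have h3 : sIn (w t) j P.2 = 1 := by
      unfold sIn
      rw [if_pos ⟨hj, hPup⟩]
    have h4 : sIn (w N) j P.2 = 0 := by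
      unfold sIn
      rw [if_neg]
      omega
    rcases hPadj.cases_up hPup with ⟨g1, -⟩ | ⟨g1, g2, g3⟩
    · -- vertical arrival
      have g1' : P.1 = j := by rw [g1, hj]
      rw [U_mirror w γ j hγ, g1', show 2 * j - j + 1 = j + 1 by ring]
      have h2 := U_horiz w t N (by omega) j P.2 (fun l _ h2 => hw.adj l h2)
        (fun l _ _ => hw.par l) (by rw [← g1']; exact hPpar)
        (by rw [← g1']; exact hPav)
      rw [g1'] at hUP
      rw [h3, h4, hUP, zero_add, add_zero] at h2
      exact h2
    · -- diagonal arrival (triangular lattice)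
      have g4 : P.1 = j - 1 := by omega
      have hup2 : (w t).2 < (w (t + 1)).2 := by
        rcases oj.2.2 with h5 | h5
        · rw [hP] at h5; omega
        · exact h5
      have hPγ := U_horiz γ t N (by omega) P.1 P.2 (fun l _ h2 => hγadj l h2)
        (fun l _ _ => hγpar l) hPpar
        (by
          intro l h5 h6 h7
          refine hgav (t - 1) (by omega) le_rfl l h5 h6 ?_
          rw [h7, hP])
      have e1 : sIn (γ t) P.1 P.2 = 0 := by
        unfold sIn
        rw [if_neg]
        rw [hγ]
        simp only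
        omega
      have e2 : sIn (γ N) P.1 P.2 = 0 := by
        unfold sIn
        rw [if_neg]
        rw [hγ]
        simp only
        omega
      rw [e1, e2, add_zero] at hPγ
      rw [eq_of_add_zero _ _ hPγ, g4, show j - 1 + 1 = j by ring, U_mirror w γ j hγ,
        show 2 * j - j + 1 = j + 1 by ring]
      have hPw := U_horiz w t N (by omega) P.1 P.2 (fun l _ h2 => hw.adj l h2)
        (fun l _ _ => hw.par l) hPpar hPav
      have e3 : sIn (w t) P.1 P.2 = 0 := by
        unfold sIn
        rw [if_neg]
        omega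
      have e4 : sIn (w N) P.1 P.2 = 0 := by
        unfold sIn
        rw [if_neg]
        omega
      rw [e3, e4, add_zero] at hPw
      have h5 : U w t N j P.2 = 0 := by
        rw [g4, show j - 1 + 1 = j by ring] at hPw
        rw [← eq_of_add_zero _ _ hPw, ← g4]
        exact hUP
      have h2 := U_gen w t N (by omega) j P.2 (fun l _ h2 => hw.adj l h2)
        (fun l _ _ => hw.par l)
        (by
          intro l _ _ h6 h7
          exfalso
          have := hPpar h6
          omega)
      have h6 : Vc w t N j P.2 = 0 := by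
        unfold Vc
        refine Finset.sum_eq_zero (fun m hm => ?_)
        rw [Finset.mem_Ico] at hm
        unfold vInd
        rw [if_neg]
        rintro ⟨q1, q2, q3⟩
        have hadj := hw.adj m (by omega)
        have p1 := hw.par m g1
        have p2 := hw.par (m + 1) g1
        have p3 := hPpar g1
        unfold Adj at hadj
        simp only [g1] at hadj
        rcases Nat.eq_or_lt_of_le hm.1 with h7 | h7
        · rw [← h7] at q3 hadj
          omega
        · have n1 : w m ≠ w t := fun hh => by
            have := hw.inj m t (by omega) (by omega) hh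
            omega
          have n2 : w (m + 1) ≠ w t := fun hh => by
            have := hw.inj (m + 1) t (by omega) (by omega) hh
            omega
          have n1' : ¬ ((w m).1 = (w t).1 ∧ (w m).2 = (w t).2) := fun hh =>
            n1 (Prod.ext hh.1 hh.2)
          have n2' : ¬ ((w (m + 1)).1 = (w t).1 ∧ (w (m + 1)).2 = (w t).2) := fun hh =>
            n2 (Prod.ext hh.1 hh.2)
          omega
      rw [h3, h4, h5, h6, zero_add, add_zero, add_zero] at h2
      exact h2
  -- claim 2
  have hadj' := hw.adj s htN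
  have hmn' := mn (s + 1) (by omega)
  have hfst' : (w (s + 1)).1 = j' + 1 := by
    have := hadj'.abs_fst
    omega
  obtain ⟨y, hy⟩ : ∃ y, (w (s + 1)).2 = y := ⟨_, rfl⟩
  obtain ⟨Δ, hΔ⟩ : ∃ Δ : ℕ → ℤ × ℤ, ∀ n, Δ n = if n < Mu then
      (2 * j - (υ (Mu - n)).1, (υ (Mu - n)).2) else γ (n - Mu) := ⟨_, fun _ => rfl⟩
  have Δge : ∀ n, Mu ≤ n → Δ n = γ (n - Mu) := fun n hn => by rw [hΔ, if_neg (by omega)]
  have hυ0 : γ 0 = (2 * j - (υ 0).1, (υ 0).2) := by
    rw [u0, rs_le 0 (by omega), hγ]
  have Δle : ∀ n, n ≤ Mu → Δ n = (2 * j - (υ (Mu - n)).1, (υ (Mu - n)).2) := by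
    intro n hn
    rcases Nat.eq_or_lt_of_le hn with h1 | h1
    · rw [h1, Δge Mu le_rfl, Nat.sub_self, hυ0]
    · rw [hΔ, if_pos h1]
  have hΔadj : ∀ n, n < Mu + s → Adj (Δ n) (Δ (n + 1)) := by
    intro n hn
    rcases Nat.lt_or_ge n Mu with h1 | h1
    · rw [Δle n h1.le, Δle (n + 1) h1]
      have h2 := uadj (Mu - (n + 1)) (by omega)
      rw [show Mu - (n + 1) + 1 = Mu - n by omega] at h2
      exact h2.refl2 j
    · rw [Δge n h1, Δge (n + 1) (by omega), show n + 1 - Mu = (n - Mu) + 1 by omega]
      exact hγadj _ (by omega)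
  have hΔpar : ∀ n, Par (Δ n) := by
    intro n
    rcases Nat.lt_or_ge n Mu with h1 | h1
    · rw [Δle n h1.le]; exact (upar _).refl2 j
    · rw [Δge n h1]; exact hγpar _
  have hΔav : ∀ l, s + 1 ≤ l → l ≤ k → ∀ n, 0 ≤ n → n ≤ Mu + s → Δ n ≠ V l := by
    intro l h1 h2 n _ h4 h5
    rcases Nat.lt_or_ge n Mu with h6 | h6
    · rw [Δle n h6.le, hV, Prod.mk.injEq] at h5
      refine uav (Mu - n) (by omega) (by omega) l (by omega) ?_
      rw [rs_gt l (by omega)]
      ext
      · simp only; omega
      · simp only; exact h5.2.symm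
    · rw [Δge n h6, hγ, hV, Prod.mk.injEq] at h5
      have h7 : rf w s (n - Mu) = rf w s l := by
        rw [rs_le _ (by omega), rs_gt l (by omega)]
        ext
        · simp only; omega
        · simp only; exact h5.2
      have := sw2.inj (n - Mu) l (by omega) (by omega) h7
      omega
  have hΔU : ∀ x y, x ≤ 2 * j → U Δ 0 (Mu + s) x y = U γ 0 s x y := by
    intro x y hx
    rw [U_split Δ (a := 0) (b := Mu) (c := Mu + s) (by omega) (by omega)]
    have e1 : U Δ 0 Mu x y = 0 := by
      apply U_eq_zero
      intro n h1 h2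
      right
      rw [Δle n (by omega), Δle (n + 1) (by omega)]
      have := ule (Mu - n) (by omega)
      have := ule (Mu - (n + 1)) (by omega)
      simp only
      omega
    have e2 : U Δ Mu (Mu + s) x y = U γ 0 s x y := by
      unfold U
      have h1 := Finset.sum_Ico_add' (fun n => eInd (Δ n) (Δ (n + 1)) x y) 0 s Mu
      rw [zero_add, add_comm s Mu] at h1
      rw [← h1]
      refine Finset.sum_congr rfl (fun n hn => ?_)
      rw [Δge (n + Mu) (by omega), Δge (n + Mu + 1) (by omega), show n + Mu - Mu = n by omega,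
        show n + Mu + 1 - Mu = n + 1 by omega]
    rw [e1, e2, zero_add]
  have hVl : ∀ l, s + 1 ≤ l → l ≤ N → (V l).1 ≤ 2 * j - (υ Mu).1 := by
    intro l h1 h2
    have h3 := uend l h2
    rw [rs_gt l (by omega)] at h3
    rw [hV]
    simp only at h3 ⊢
    omega
  have c2 : U γ 0 s (V k).1 (V k).2 = 0 := by
    have h1 := U_const Δ V 0 (Mu + s) (s + 1) k (2 * j - j' + 1) (2 * j - (υ Mu).1) (by omega) hk
      (fun l _ h2 => hΔadj l (by omega)) (fun l _ h2 => hVadj l (by omega))
      (fun l _ _ => hΔpar l) (fun l _ _ => hVpar l)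
      (by
        intro l h1 h2
        refine ⟨?_, hVl l h1 (by omega)⟩
        have h3 := mn l (by omega)
        rw [hV]
        simp only
        omega)
      hΔav
      (by rw [Δle 0 (by omega), Nat.sub_zero]; simp only; omega)
      (by rw [Δge (Mu + s) (by omega), show Mu + s - Mu = s by omega, hγ, hj']; simp only; omega)
    have hVk1 : (V k).1 ≤ 2 * j := by
      rw [hV]
      simp only
      omega
    have hV1 : V (s + 1) = (2 * j - j' + 1, y) := by
      rw [hV, hfst', hy]
      ext <;> simp; omega
    rw [hΔU _ _ hVk1, hΔU _ _ (by rw [hV1]; simp only; omega)] at h1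
    rw [← h1]
    rw [hV1]
    simp only
    rw [U_mirror w γ j hγ, show 2 * j - (2 * j - j' + 1) + 1 = j' by ring]
    -- the point before `w s`
    obtain ⟨P', hP'⟩ : ∃ P, w (s - 1) = P := ⟨_, rfl⟩
    have hPadj' : Adj P' (w s) := by
      have := hw.adj (s - 1) (by omega)
      rw [ht2', hP'] at this
      exact this
    have hPup' : P'.2 < (w s).2 := by rw [← hP']; exact oj'.2.1
    have hPor : P'.1 = (w s).1 ∨ (w s).2 < y := by
      rw [← hP', ← hy]; exact oj'.2.2
    have pt' := hw.par s
    have pt1 := hw.par (s + 1)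
    have hU2 : U w 0 s (j' + 1) y = 0 := by
      have h7 := U_const w w 0 s (s + 1) N (j' + 1) (w N).1 (by omega) (by omega)
        (fun l _ h2 => hw.adj l (by omega)) (fun l _ h2 => hw.adj l (by omega))
        (fun l _ _ => hw.par l) (fun l _ _ => hw.par l)
        (by
          intro l h8 h9
          have h10 := mn l (by omega)
          exact ⟨by omega, hle l h9⟩)
        (by
          intro l h8 h9 n h10 h11 h12
          have := hw.inj n l (by omega) (by omega) h12
          omega)
        (by omega) (by left; omega)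
      rw [hfst', hy] at h7
      rw [h7]
      have h8 := U_horiz w 0 s (by omega) (w N).1 (w N).2 (fun l _ h2 => hw.adj l (by omega))
        (fun l _ _ => hw.par l) (fun hk => hw.par N hk)
        (by
          intro l h8 h9 h10
          have := hw.inj l N (by omega) le_rfl h10
          omega)
      have h9 : U w 0 s ((w N).1 + 1) (w N).2 = 0 := by
        apply U_eq_zero
        intro l h10 h11
        left
        have := hle l (by omega)
        have := hle (l + 1) (by omega)
        omega
      have h10 : sIn (w 0) (w N).1 (w N).2 = 0 := by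
        unfold sIn
        rw [if_neg]
        omega
      have h11 : sIn (w s) (w N).1 (w N).2 = 0 := by
        unfold sIn
        rw [if_neg]
        omega
      rw [h9, h10, h11, add_zero, add_zero] at h8
      exact h8
    have h3 := U_gen w 0 s (by omega) j' y (fun l _ h2 => hw.adj l (by omega))
      (fun l _ _ => hw.par l)
      (by
        intro l _ _ h6 h7
        exfalso
        have := pt1 h6
        omega)
    have h5 : sIn (w 0) j' y = 0 := by
      unfold sIn
      rw [if_neg]
      rw [hx0]
      omega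
    -- vertical edges
    have hn : ∀ m, m < s - 1 → vInd (w m) (w (m + 1)) j' y = 0 := by
      intro m hm
      unfold vInd
      rw [if_neg]
      rintro ⟨q1, q2, q3⟩
      have hadj := hw.adj m (by omega)
      have p1 := hw.par m
      have p2 := hw.par (m + 1)
      have n1 : w m ≠ w s := fun hh => by
        have := hw.inj m s (by omega) (by omega) hh
        omega
      have n2 : w (m + 1) ≠ w s := fun hh => by
        have := hw.inj (m + 1) s (by omega) (by omega) hh
        omega
      have n1' : ¬ ((w m).1 = (w s).1 ∧ (w m).2 = (w s).2) := fun hh =>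
        n1 (Prod.ext hh.1 hh.2)
      have n2' : ¬ ((w (m + 1)).1 = (w s).1 ∧ (w (m + 1)).2 = (w s).2) := fun hh =>
        n2 (Prod.ext hh.1 hh.2)
      have hadj2 := hadj'
      unfold Adj at hadj hadj2
      cases hk : L.kind with
      | tri =>
        have p1' := p1 hk
        have p3' := pt' hk
        simp only [hk] at hadj hadj2
        omega
      | sq =>
        simp only [hk] at hadj hadj2
        omega
      | hex =>
        simp only [hk] at hadj hadj2
        omega
    have hVc : Vc w 0 s j' y = vInd P' (w s) j' y := by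
      unfold Vc
      rw [← ht2', Finset.sum_Ico_succ_top (by omega), ht2', hP']
      rw [Finset.sum_eq_zero, zero_add]
      intro m hm
      rw [Finset.mem_Ico] at hm
      exact hn m hm.2
    have h6 : sIn (w s) j' y + vInd P' (w s) j' y = 0 := by
      have hadj2 := hadj'
      unfold Adj at hPadj' hadj2
      unfold sIn vInd
      cases hk : L.kind with
      | tri =>
        simp only [hk] at hPadj' hadj2
        by_cases hyy : y < (w s).2
        · rw [if_pos ⟨hj', hyy⟩, if_pos]
          · decide
          · omega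
        · rw [if_neg (by omega), if_neg (by omega), add_zero]
      | sq =>
        simp only [hk] at hPadj' hadj2
        rw [if_neg (by omega), if_neg (by omega), add_zero]
      | hex =>
        simp only [hk] at hPadj' hadj2
        rw [if_neg (by omega), if_neg (by omega), add_zero]
    rw [hU2, hVc, h5, zero_add, add_zero] at h3
    rw [h3]
    exact h6
  -- claim 3
  have c3 : U γ t N (w i).1 (w i).2 = U γ 0 s (w i).1 (w i).2 := by
    rw [U_split γ (a := t) (b := s) (c := N) (by omega) (by omega),
      U_split γ (a := 0) (b := t) (c := s) (by omega) (by omega)]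
    have h1 : U γ s N (w i).1 (w i).2 = 0 := by
      apply U_eq_zero
      intro l h1 h2
      left
      rw [hγ, hγ]
      have h3 := mn (l + 1) (by omega)
      have h4 : j' ≤ (w l).1 := by
        rcases Nat.eq_or_lt_of_le h1 with h5 | h5
        · rw [← h5]; omega
        · have := mn l h5; omega
      simp only
      omega
    have h2 : U γ 0 t (w i).1 (w i).2 = 0 := by
      apply U_eq_zero
      intro l h1 h2
      right
      rw [hγ, hγ]
      have := mx l (by omega)
      have := mx (l + 1) (by omega)
      simp only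
      omega
    rw [h1, h2, add_zero, zero_add]
  have hVk : V k = w i := by rw [hV, ← heq]
  rw [hVk] at c2
  rw [c3, c2] at c1
  exact absurd c1 (by decide)

end Pool.Agent.W387.S
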